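import Pool.Agent.W186.LH.Nrm

set_option autoImplicit false

/-!
# Few zeros: upper bounds for the flow
-/

namespace Pool.Agent.W186.LH

open Complex Filter Topology MeasureTheory Set
open Pool.Agent.H24R2.JP (XX HH Om)
open Pool.Agent.H986R2.DBN (JT XT Ht)
open Pool.Agent.W186.HZ

/-- transfer of orders -/
lemma ord_tr {G E : ℂ → ℂ} (hG : Differentiable ℂ G) (hne : ∃ u, G u ≠ 0) {a b : ℂ} (ha : a ≠ 0)
    (hE : Differentiable ℂ E) (hE0 : ∀ u, E u ≠ 0) (u0 : ℂ) :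
    analyticOrderNatAt (fun u => G (a * u + b) * E u) u0 = analyticOrderNatAt G (a * u0 + b) := by
  obtain ⟨h, hh, hh0, hGh⟩ := single hG hne (a * u0 + b)
  obtain ⟨n, hn⟩ : ∃ n : ℕ, n = analyticOrderNatAt G (a * u0 + b) := ⟨_, rfl⟩
  rw [← hn] at hGh ⊢
  have hc : Differentiable ℂ fun u : ℂ => a * u + b := by fun_prop
  refine ord_of (h := fun u => a ^ n * h (a * u + b) * E u) ?_ ?_ ?_ fun u => ?_
  · exact (hG.comp hc).mul hE
  · exact ((hh.comp hc).const_mul (a ^ n)).mul hE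
  · exact mul_ne_zero (mul_ne_zero (pow_ne_zero _ ha) hh0) (hE0 _)
  · rw [hGh]
    have : a * u + b - (a * u0 + b) = a * (u - u0) := by ring
    rw [this, mul_pow]
    ring

lemma XT_ne {τ T0 : ℝ} (hτ : 0 ≤ τ) (T : ℝ) (h : XT τ (T0 + I * T) ≠ 0) : (∃ u, XT τ u ≠ 0) := ⟨_, h⟩

lemma fN_ord {τ T s : ℝ} (hτ : 0 ≤ τ) (hT : 0 < T) (hs : s = 1 ∨ s = -1) (hne : ∃ u, XT τ u ≠ 0) (u : ℂ) :
    analyticOrderNatAt (fN τ T s) u = analyticOrderNatAt (XT τ) (I * T + s * u) := by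
  have hHp : 0 < ‖HH (I * T)‖ := by
    have h0 : HH (I * T) ≠ 0 := by
      apply Pool.Agent.H24R2.JP.StirAux.HH_ne
      simpa using hT
    exact norm_pos_iff.2 h0
  have h1 : Differentiable ℂ (XT τ) := fun z => Pool.Agent.H986R2.DBN.KerAux.hasDerivAt_XT hτ z
  have hs0 : (s : ℂ) ≠ 0 := by
    rcases hs with rfl | rfl <;> simp
  obtain ⟨c, hc⟩ : ∃ c : ℂ, c = (((‖HH (I * T)‖ * Real.exp (τ * Om T ^ 2))⁻¹ : ℝ) : ℂ) := ⟨_, rfl⟩
  have hc0 : c ≠ 0 := by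
    rw [hc, Complex.ofReal_ne_zero]
    positivity
  have h2 := ord_tr (G := XT τ) (E := fun u => cexp (-(Om T : ℂ) * u) * c) h1 hne hs0 (b := I * T)
    (by fun_prop) (fun u => mul_ne_zero (Complex.exp_ne_zero _) hc0) u
  have e : fN τ T s = fun u => XT τ (s * u + I * T) * (cexp (-(Om T : ℂ) * u) * c) := by
    funext u
    unfold fN
    rw [← hc, add_comm (I * (T : ℂ)), mul_assoc]
  rw [e, h2, add_comm]

lemma fN_zero {τ T s : ℝ} (hT : 0 < T) (u : ℂ) : fN τ T s u = 0 ↔ XT τ (I * T + s * u) = 0 := by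
  have hHp : 0 < ‖HH (I * T)‖ := by
    have h0 : HH (I * T) ≠ 0 := by
      apply Pool.Agent.H24R2.JP.StirAux.HH_ne
      simpa using hT
    exact norm_pos_iff.2 h0
  have hc0 : (((‖HH (I * T)‖ * Real.exp (τ * Om T ^ 2))⁻¹ : ℝ) : ℂ) ≠ 0 := by
    rw [Complex.ofReal_ne_zero]
    positivity
  unfold fN
  constructor
  · intro h
    rcases mul_eq_zero.1 h with h | h
    · rcases mul_eq_zero.1 h with h | h
      · exact h
      · exact absurd h (Complex.exp_ne_zero _)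
    · exact absurd h hc0
  · intro h
    rw [h, zero_mul, zero_mul]

/-- the number of zeros near height `T` to the right of `η` is at most `c` -/
def Cn (τ T η c : ℝ) : Prop := ∀ S : Finset ℂ, (∀ w ∈ S, XT τ w = 0 ∧ η ≤ w.re ∧ |w.im - T| ≤ 5) →
  ∑ w ∈ S, (analyticOrderNatAt (XT τ) w : ℝ) ≤ c

lemma wtz (m X η : ℝ) (hm : 0 < m) (hX : m ≤ X) (hη : 0 < η) (hη4 : η ≤ 1 / 4) :
    ∃ ε T0 : ℝ, 0 < ε ∧ 400 ≤ T0 ∧
    ∀ T τ : ℝ, T0 ≤ T → 0 < τ → m ≤ 2 * τ * Om T → 2 * τ * Om T ≤ X → Cn τ T (η / 4) (ε * Om T) →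
      ∀ σ : ℝ, η ≤ σ → σ ≤ 3 →
      ‖XT τ (σ + I * T)‖ ≤ Real.exp (Om T * (σ + τ * Om T + η)) * ‖HH (I * T)‖ := by
  obtain ⟨K0, hK0, hb⟩ := fN_base m X hm hX
  obtain ⟨ε, hε, hsab⟩ := sabZ η η K0 hη hη4 hη hK0
  obtain ⟨T1, hT1, hb1⟩ := hb ε hε
  obtain ⟨T4, hT4, hO⟩ := Om_large 1
  refine ⟨ε, max T1 T4, hε, hT1.trans (le_max_left _ _), ?_⟩
  intro T τ hT hτ h1 h2 hC σ hσ0 hσ1
  have g1 : T1 ≤ T := (le_max_left _ _).trans hT
  have g4 : T4 ≤ T := (le_max_right _ _).trans hT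
  have hOm := hO T g4
  have hTp : 0 < T := by linarith [hT4.trans g4]
  obtain ⟨b1, b2⟩ := hb1 T τ 1 g1 hτ h1 h2 (Or.inl rfl)
  have hne : ∃ u, XT τ u ≠ 0 := by
    have h3 := (b2 5 (Metric.mem_closedBall_self (by norm_num))).1
    refine ⟨I * T + (1 : ℝ) * 5, fun h0 => ?_⟩
    rw [(fN_zero hTp 5).2 h0, norm_zero] at h3
    have := Real.exp_pos (-(ε * Om T))
    linarith
  have key := hsab (Om T) (fN τ T 1) (by linarith) (fN_diff hτ.le T 1) b1 b2 (by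
    intro S hS
    classical
    have h5 := hC (S.image (fun u => I * T + (1 : ℝ) * u)) (by
      intro w hw
      rw [Finset.mem_image] at hw
      obtain ⟨u, hu, rfl⟩ := hw
      obtain ⟨u1, u2⟩ := hS u hu
      obtain ⟨z1, z2⟩ := mem5 u2
      rw [abs_le] at z1
      refine ⟨(fN_zero hTp u).1 u1, ?_, ?_⟩
      · simp; linarith
      · simp; linarith)
    rw [Finset.sum_image (by
      intro x _ y _ hxy
      simpa using hxy)] at h5
    refine le_trans (le_of_eq ?_) h5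
    refine Finset.sum_congr rfl fun u _ => ?_
    rw [fN_ord hτ.le hTp (Or.inl rfl) hne]) (σ : ℂ) (by
      rw [Metric.mem_closedBall, dist_eq_norm]
      have e : (σ : ℂ) - 5 = ((σ - 5 : ℝ) : ℂ) := by push_cast; ring
      rw [e, Complex.norm_real, Real.norm_eq_abs, abs_le]
      constructor <;> linarith)
  have hn := fN_norm (τ := τ) hTp (Or.inl rfl : (1 : ℝ) = 1 ∨ (1 : ℝ) = -1) (σ : ℂ)
  rw [Complex.ofReal_re, Complex.ofReal_im, mul_zero, add_zero] at hn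
  rw [← hn]
  have hHp : 0 ≤ ‖HH (I * T)‖ := norm_nonneg _
  calc ‖fN τ T 1 (σ : ℂ)‖ * (‖HH (I * T)‖ * Real.exp (Om T * σ + τ * Om T ^ 2))
      ≤ Real.exp (η * Om T) * (‖HH (I * T)‖ * Real.exp (Om T * σ + τ * Om T ^ 2)) :=
        mul_le_mul_of_nonneg_right key (by positivity)
    _ = Real.exp (Om T * (σ + τ * Om T + η)) * ‖HH (I * T)‖ := by
        have e : Om T * (σ + τ * Om T + η) = η * Om T + (Om T * σ + τ * Om T ^ 2) := by ring
        rw [e, Real.exp_add (η * Om T)]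
        ring

/-- bounds at all heights between `T/2` and `3T/2` -/
lemma pwz (m X η : ℝ) (hm : 0 < m) (hX : m ≤ X) (hη : 0 < η) (hη4 : η ≤ 1 / 4) :
    ∃ ε T0 : ℝ, 0 < ε ∧ 400 ≤ T0 ∧
    ∀ T τ : ℝ, T0 ≤ T → 0 < τ → m ≤ 2 * τ * Om T → 2 * τ * Om T ≤ X →
      (∀ T' : ℝ, T / 2 ≤ T' → T' ≤ 2 * T → Cn τ T' (η / 4) (ε * Om T')) →
      ∀ h : ℝ, |h| ≤ T / 2 → ∀ σ : ℝ, η ≤ σ → σ ≤ 3 →
      ‖XT τ (σ + I * ((T + h : ℝ) : ℂ))‖ ≤
        Real.exp (Om T * σ + τ * Om T ^ 2 + (X + 3) + η * Om T + |h|) * ‖HH (I * T)‖ := by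
  obtain ⟨ε, T1, hε, hT1, hw⟩ := wtz (m / 2) (2 * X) η (by linarith) (by linarith) hη hη4
  obtain ⟨T2, hT2, hHm⟩ := HH_move
  obtain ⟨T4, hT4, hO⟩ := Om_large 1
  refine ⟨ε, max (max (2 * T1) (2 * T2)) T4, hε, hT4.trans (le_max_right _ _), ?_⟩
  intro T τ hT hτ h1 h2 hz h hh σ hσ0 hσ1
  have g1 : 2 * T1 ≤ T := ((le_max_left _ _).trans (le_max_left _ _)).trans hT
  have g2 : 2 * T2 ≤ T := ((le_max_right _ _).trans (le_max_left _ _)).trans hT
  have g4 : T4 ≤ T := (le_max_right _ _).trans hT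
  have hO2 := hO T g4
  have hT400 : 400 ≤ T := hT4.trans g4
  obtain ⟨T', hT'⟩ : ∃ T' : ℝ, T' = T + h := ⟨_, rfl⟩
  have hh' := abs_le.1 hh
  have hOn := Om_half (T' := T') hT400 (by rw [hT', add_sub_cancel_left]; exact hh)
  rw [abs_le] at hOn
  have hz' := hz T' (by linarith) (by linarith)
  obtain ⟨L, hL⟩ : ∃ L : ℝ, L = Om T := ⟨_, rfl⟩
  obtain ⟨L', hL'⟩ : ∃ L' : ℝ, L' = Om T' := ⟨_, rfl⟩
  rw [← hL, ← hL'] at hOn
  rw [← hL] at h1 h2 hO2 ⊢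
  rw [← hT']
  have hτX : τ * L ≤ X / 2 := by linarith only [h2]
  have hτ1 : τ ≤ X / 2 := by
    have : τ * 1 ≤ τ * L := mul_le_mul_of_nonneg_left hO2 hτ.le
    linarith only [this, hτX]
  have h1' : m / 2 ≤ 2 * τ * L' := by
    have : 2 * τ * (1 / 2 * L) ≤ 2 * τ * L' := by
      apply mul_le_mul_of_nonneg_left _ (by positivity)
      linarith only [hOn.1, hO2]
    linarith only [this, h1]
  have h2' : 2 * τ * L' ≤ 2 * X := by
    have : 2 * τ * L' ≤ 2 * τ * (2 * L) := by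
      apply mul_le_mul_of_nonneg_left _ (by positivity)
      linarith only [hOn.2, hO2]
    linarith only [this, h2]
  rw [hL'] at h1' h2'
  have k3 := hw T' τ (by linarith) hτ h1' h2' hz' σ hσ0 hσ1
  rw [← hL'] at k3
  have m1 := hHm T h (by linarith) (by linarith)
  rw [← hT'] at m1
  have hH0 : 0 ≤ ‖HH (I * T)‖ := norm_nonneg _
  have hH1 : 0 ≤ ‖HH (I * T')‖ := norm_nonneg _
  have q1 : |τ * (L' ^ 2 - L ^ 2)| ≤ X := by
    have e : τ * (L' ^ 2 - L ^ 2) = (L' - L) * (τ * (L' + L)) := by ring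
    have hL'0 : 0 < L' := by linarith only [hOn.1, hO2]
    rw [e, abs_mul, abs_of_pos (by positivity : 0 < τ * (L' + L))]
    have a1 : |L' - L| ≤ 1 / 2 := abs_le.2 ⟨by linarith only [hOn.1], by linarith only [hOn.2]⟩
    have a2 : τ * (L' + L) ≤ 2 * X := by
      have : τ * (L' + L) ≤ τ * (2 * L + 1) := mul_le_mul_of_nonneg_left (by linarith only [hOn.2]) hτ.le
      linarith only [this, hτX, hτ1, hm, hX]
    calc |L' - L| * (τ * (L' + L)) ≤ 1 / 2 * (2 * X) := by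
          apply mul_le_mul a1 a2 (by positivity) (by norm_num)
      _ = X := by ring
  rw [abs_le] at q1
  have hσp : 0 ≤ σ := by linarith only [hσ0, hη]
  have q2 : η * L' ≤ η * (L + 1 / 2) := mul_le_mul_of_nonneg_left (by linarith only [hOn.2]) hη.le
  have q3 : (L' - L) * σ ≤ 1 / 2 * σ := mul_le_mul_of_nonneg_right hOn.2 hσp
  refine k3.trans ?_
  calc Real.exp (L' * (σ + τ * L' + η)) * ‖HH (I * T')‖
      ≤ Real.exp (L * σ + τ * L ^ 2 + (X + 3) + η * L) * (Real.exp |h| * ‖HH (I * T)‖) := by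
        apply mul_le_mul _ m1 hH1 (Real.exp_pos _).le
        apply Real.exp_le_exp.2
        linarith only [q1.2, q2, q3, hσ1, hη4, hη]
    _ = _ := by
        rw [← mul_assoc, ← Real.exp_add]

end Pool.Agent.W186.LH
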