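import Mathlib

set_option autoImplicit false

/-!
# Factorisation of zeros, and Jensen's bound for their number
-/

namespace Pool.Agent.W186.LH

open Complex Filter Topology Metric Set
open scoped ComplexConjugate

lemma ord_of {F h : ℂ → ℂ} {z : ℂ} {n : ℕ} (hF : Differentiable ℂ F) (hh : Differentiable ℂ h)
    (h0 : h z ≠ 0) (h1 : ∀ u, F u = (u - z) ^ n * h u) : analyticOrderNatAt F z = n := by
  have h2 : analyticOrderAt F z = n := by
    rw [(hF.analyticAt z).analyticOrderAt_eq_natCast]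
    exact ⟨h, hh.analyticAt z, h0, Eventually.of_forall fun u => by rw [h1, smul_eq_mul]⟩
  unfold analyticOrderNatAt
  rw [h2]
  rfl

theorem single {g : ℂ → ℂ} (hg : Differentiable ℂ g) (hne : ∃ u, g u ≠ 0) (z : ℂ) :
    ∃ h : ℂ → ℂ, Differentiable ℂ h ∧ h z ≠ 0 ∧ ∀ u, g u = (u - z) ^ (analyticOrderNatAt g z) * h u := by
  have han : AnalyticAt ℂ g z := hg.analyticAt z
  have hord : analyticOrderAt g z ≠ ⊤ := by
    intro htop
    rw [analyticOrderAt_eq_top] at htop
    obtain ⟨u, hu⟩ := hne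
    apply hu
    have h1 : AnalyticOnNhd ℂ g Set.univ := fun x _ => hg.analyticAt x
    have h2 := h1.eqOn_zero_of_preconnected_of_eventuallyEq_zero isPreconnected_univ
      (Set.mem_univ z) htop
    exact h2 (Set.mem_univ u)
  obtain ⟨k, hk, hkz, hgk⟩ := (han.analyticOrderAt_ne_top).1 hord
  set n := analyticOrderNatAt g z with hn
  classical
  let h : ℂ → ℂ := fun u => if u = z then k z else g u / (u - z) ^ n
  have heq : h =ᶠ[nhds z] k := by
    filter_upwards [hgk] with u hu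
    by_cases huz : u = z
    · simp [h, huz]
    · have h3 : (u - z) ^ n ≠ 0 := pow_ne_zero _ (sub_ne_zero.2 huz)
      simp only [h, huz, if_false]
      rw [hu, smul_eq_mul, mul_div_cancel_left₀ _ h3]
  refine ⟨h, ?_, ?_, ?_⟩
  · intro u
    by_cases huz : u = z
    · subst huz
      exact (heq.differentiableAt_iff).2 hk.differentiableAt
    · have h4 : h =ᶠ[nhds u] fun v => g v / (v - z) ^ n := by
        filter_upwards [isOpen_ne.mem_nhds huz] with v hv
        have hv' : v ≠ z := hv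
        simp [h, hv']
      refine (h4.differentiableAt_iff).2 ?_
      refine DifferentiableAt.div (hg u) (by fun_prop) ?_
      exact pow_ne_zero _ (sub_ne_zero.2 huz)
  · simpa [h] using hkz
  · intro u
    by_cases huz : u = z
    · subst huz
      have h5 : g u = (u - u) ^ n • k u := hgk.self_of_nhds
      rw [h5, smul_eq_mul]
      simp [h]
    · have h3 : (u - z) ^ n ≠ 0 := pow_ne_zero _ (sub_ne_zero.2 huz)
      simp only [h, huz, if_false]
      field_simp

theorem fac (Z : Finset ℂ) {F : ℂ → ℂ} (hF : Differentiable ℂ F) (hne : ∃ u, F u ≠ 0) :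
    ∃ g : ℂ → ℂ, Differentiable ℂ g ∧ (∀ z ∈ Z, g z ≠ 0) ∧
      ∀ u, F u = (∏ z ∈ Z, (u - z) ^ (analyticOrderNatAt F z)) * g u := by
  classical
  induction Z using Finset.induction_on with
  | empty => exact ⟨F, hF, by simp, by simp⟩
  | insert z Z hz ih =>
    obtain ⟨g, hg, hgZ, hFg⟩ := ih
    have hgne : ∃ u, g u ≠ 0 := by
      obtain ⟨u, hu⟩ := hne
      refine ⟨u, ?_⟩
      intro h0
      apply hu
      rw [hFg, h0, mul_zero]
    obtain ⟨h, hh, hhz, hgh⟩ := single hg hgne z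
    have hP : Differentiable ℂ fun u => (∏ w ∈ Z, (u - w) ^ (analyticOrderNatAt F w)) * h u := by
      fun_prop
    have hP0 : (∏ w ∈ Z, (z - w) ^ (analyticOrderNatAt F w)) * h z ≠ 0 := by
      refine mul_ne_zero (Finset.prod_ne_zero_iff.2 fun w hw => pow_ne_zero _ ?_) hhz
      rw [sub_ne_zero]
      rintro rfl
      exact hz hw
    have hord : analyticOrderNatAt F z = analyticOrderNatAt g z := by
      refine ord_of hF hP hP0 fun u => ?_
      rw [hFg, hgh]
      ring
    refine ⟨h, hh, ?_, ?_⟩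
    · intro y hy
      rcases Finset.mem_insert.1 hy with hy | hy
      · rw [hy]; exact hhz
      · intro h0
        apply hgZ y hy
        rw [hgh, h0, mul_zero]
    · intro u
      rw [Finset.prod_insert hz, hord, hFg u, hgh u]
      ring

lemma blaschke_id {R : ℝ} {a b : ℂ} (hb : ‖b‖ = R) : ‖(R : ℂ) ^ 2 - conj a * b‖ = R * ‖b - a‖ := by
  have hR : 0 ≤ R := by rw [← hb]; exact norm_nonneg _
  have h1 : (R : ℂ) ^ 2 = b * conj b := by
    rw [Complex.mul_conj, Complex.normSq_eq_norm_sq, hb]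
    push_cast
    ring
  have h2 : (R : ℂ) ^ 2 - conj a * b = b * conj (b - a) := by
    rw [h1, map_sub]; ring
  rw [h2, norm_mul, Complex.norm_conj, hb]

/-- Jensen's bound -/
theorem jc {F : ℂ → ℂ} (hF : Differentiable ℂ F) {c : ℂ} {r R M : ℝ} (hr : 0 < r) (hrR : r ≤ R)
    (hM : ∀ u ∈ sphere c R, ‖F u‖ ≤ M) (hc : F c ≠ 0) (S : Finset ℂ) (hS : ∀ z ∈ S, z ∈ closedBall c r) :
    (R / r) ^ (∑ z ∈ S, analyticOrderNatAt F z) * ‖F c‖ ≤ M := by
  classical
  obtain ⟨G, hG, -, hFG⟩ := fac S hF ⟨c, hc⟩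
  have hR : 0 < R := by linarith
  obtain ⟨m, hm⟩ : ∃ m : ℂ → ℕ, m = fun z => analyticOrderNatAt F z := ⟨_, rfl⟩
  have hFG' : ∀ u, F u = (∏ z ∈ S, (u - z) ^ (m z)) * G u := by rw [hm]; exact hFG
  have hgoal : (∑ z ∈ S, analyticOrderNatAt F z) = ∑ z ∈ S, m z := by rw [hm]
  rw [hgoal]
  obtain ⟨K, hK⟩ : ∃ K : ℂ → ℂ, K = fun u =>
    (∏ z ∈ S, (((R : ℂ) ^ 2 - conj (z - c) * (u - c)) / R) ^ (m z)) * G u := ⟨_, rfl⟩
  have hKd : Differentiable ℂ K := by rw [hK]; fun_prop
  have hKs : ∀ u ∈ sphere c R, ‖K u‖ = ‖F u‖ := by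
    intro u hu
    rw [mem_sphere, dist_eq_norm] at hu
    rw [hK, hFG' u]
    simp only [norm_mul, norm_prod, norm_pow, norm_div]
    congr 1
    refine Finset.prod_congr rfl fun z _ => ?_
    congr 1
    rw [blaschke_id hu, Complex.norm_real, Real.norm_of_nonneg hR.le, mul_div_assoc, mul_comm,
      div_mul_cancel₀ _ hR.ne']
    congr 1
    ring
  have hmax : ‖K c‖ ≤ M := by
    refine Complex.norm_le_of_forall_mem_frontier_norm_le (U := ball c R) isBounded_ball
      hKd.diffContOnCl ?_ (subset_closure (mem_ball_self hR))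
    intro z hz
    rw [frontier_ball c hR.ne'] at hz
    rw [hKs z hz]
    exact hM z hz
  have hKc : ‖K c‖ = R ^ (∑ z ∈ S, m z) * ‖G c‖ := by
    rw [hK]
    simp only [sub_self, mul_zero, sub_zero, norm_mul, norm_prod, norm_pow, norm_div]
    congr 1
    rw [← Finset.prod_pow_eq_pow_sum]
    refine Finset.prod_congr rfl fun z _ => ?_
    congr 1
    rw [Complex.norm_real, Real.norm_of_nonneg hR.le]
    field_simp
  have hFc : ‖F c‖ ≤ r ^ (∑ z ∈ S, m z) * ‖G c‖ := by
    rw [hFG' c, norm_mul]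
    refine mul_le_mul_of_nonneg_right ?_ (norm_nonneg _)
    rw [norm_prod, ← Finset.prod_pow_eq_pow_sum]
    refine Finset.prod_le_prod (fun z _ => norm_nonneg _) fun z hz => ?_
    rw [norm_pow]
    refine pow_le_pow_left₀ (norm_nonneg _) ?_ _
    have := hS z hz
    rwa [mem_closedBall, dist_eq_norm, norm_sub_rev] at this
  calc (R / r) ^ (∑ z ∈ S, m z) * ‖F c‖
      ≤ (R / r) ^ (∑ z ∈ S, m z) * (r ^ (∑ z ∈ S, m z) * ‖G c‖) :=
        mul_le_mul_of_nonneg_left hFc (by positivity)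
    _ = R ^ (∑ z ∈ S, m z) * ‖G c‖ := by
        rw [← mul_assoc, ← mul_pow, div_mul_cancel₀ _ hr.ne']
    _ = ‖K c‖ := hKc.symm
    _ ≤ M := hmax

/-- the zeros in a compact set -/
lemma zfin {F : ℂ → ℂ} (hF : Differentiable ℂ F) (hne : ∃ u, F u ≠ 0) {K : Set ℂ} (hK : IsCompact K) :
    {z : ℂ | z ∈ K ∧ F z = 0}.Finite := by
  have han : AnalyticOnNhd ℂ F Set.univ := fun x _ => hF.analyticAt x
  by_contra hinf
  obtain ⟨x, -, hx⟩ := Set.Infinite.exists_accPt_of_subset_isCompact hinf hK (sep_subset _ _)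
  rw [accPt_iff_frequently_nhdsNE] at hx
  have h2 : ∃ᶠ z in 𝓝[≠] x, F z = 0 := hx.mono fun z hz => hz.2
  have h3 := han.eqOn_zero_of_preconnected_of_frequently_eq_zero isPreconnected_univ (mem_univ x) h2
  obtain ⟨u, hu⟩ := hne
  exact hu (h3 (mem_univ u))

end Pool.Agent.W186.LH
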