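import Pool.Agent.W186.LH.Fac
import Pool.Agent.H986R2.K4.SAB

set_option autoImplicit false

/-!
# Two constants: few zeros give an upper bound
-/

namespace Pool.Agent.W186.LH

open Complex Filter Topology Metric Set

lemma bnd_small (B θ δ : ℝ) (hB : 0 < B) (hθ : θ < 1) (hδ : 0 < δ) : ∃ ε : ℝ, 0 < ε ∧ ε ≤ 1 ∧
    (60 * ε) ^ (1 - θ) * B ^ θ ≤ δ := by
  have hlim : Tendsto (fun ε : ℝ => (60 * ε) ^ (1 - θ) * B ^ θ) (𝓝[>] 0) (𝓝 0) := by
    have h1 : Tendsto (fun ε : ℝ => 60 * ε) (𝓝[>] 0) (𝓝 0) := by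
      have : Tendsto (fun ε : ℝ => 60 * ε) (𝓝 0) (𝓝 (60 * 0)) := (continuous_const_mul _).tendsto 0
      rw [mul_zero] at this
      exact this.mono_left nhdsWithin_le_nhds
    have h2 : Tendsto (fun x : ℝ => x ^ (1 - θ)) (𝓝 0) (𝓝 0) := by
      have := (Real.continuousAt_rpow_const 0 (1 - θ) (Or.inr (by linarith))).tendsto
      rwa [Real.zero_rpow (by linarith)] at this
    have h3 := (h2.comp h1).mul_const (B ^ θ)
    rw [zero_mul] at h3
    exact h3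
  have h4 : ∀ᶠ ε : ℝ in 𝓝[>] 0, (60 * ε) ^ (1 - θ) * B ^ θ < δ := hlim.eventually (gt_mem_nhds hδ)
  have h5 : ∀ᶠ ε : ℝ in 𝓝[>] 0, ε < 1 := nhdsWithin_le_nhds (gt_mem_nhds (by norm_num))
  have h6 : ∀ᶠ ε : ℝ in 𝓝[>] 0, 0 < ε := eventually_mem_nhdsWithin
  obtain ⟨ε, ha, hb, hc⟩ := (h4.and (h5.and h6)).exists
  exact ⟨ε, hc, hb.le, ha.le⟩

/-- zero-free version on a ball -/
theorem sabB (η0 η K0 : ℝ) (hη0 : 0 < η0) (hη04 : η0 ≤ 1 / 4) (hη : 0 < η) (hK0 : 0 < K0) :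
    ∃ ε : ℝ, 0 < ε ∧ ε ≤ 1 ∧ ∀ (L : ℝ) (g : ℂ → ℂ), 0 < L →
      DifferentiableOn ℂ g (ball 5 (5 - η0 / 4)) → (∀ z ∈ ball (5 : ℂ) (5 - η0 / 4), g z ≠ 0) →
      (∀ z ∈ ball (5 : ℂ) (5 - η0 / 4), ‖g z‖ ≤ Real.exp (K0 * L)) →
      (∀ z ∈ ball (5 : ℂ) (16 / 5), Real.exp (-(ε * L)) ≤ ‖g z‖ ∧ ‖g z‖ ≤ Real.exp (ε * L)) →
      ∀ z ∈ closedBall (5 : ℂ) (5 - η0), ‖g z‖ ≤ Real.exp (η * L) := by
  obtain ⟨θ, hθ0, hθ1, h3c⟩ := Pool.Agent.H296R2.LE.three_circles (r := 3) (ρ := 5 - η0)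
    (R := 5 - η0 / 2) (by norm_num) (by linarith) (by linarith)
  obtain ⟨B, hB⟩ : ∃ B : ℝ, B = 80 * (K0 + 1) / η0 := ⟨_, rfl⟩
  have hB160 : 60 ≤ B := by
    rw [hB, le_div_iff₀ hη0]; nlinarith
  have hB0 : 0 < B := by linarith
  obtain ⟨ε1, hε10, hε11, hεδ1⟩ := bnd_small B θ (η / 2) hB0 hθ1 (by linarith)
  obtain ⟨ε, hε⟩ : ∃ ε : ℝ, ε = min ε1 (η / 2) := ⟨_, rfl⟩
  have hε0 : 0 < ε := by rw [hε]; exact lt_min hε10 (by linarith)
  have e1 : ε ≤ ε1 := by rw [hε]; exact min_le_left _ _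
  have hεη : ε ≤ η / 2 := by rw [hε]; exact min_le_right _ _
  have hε1 : ε ≤ 1 := e1.trans hε11
  have hεδ : (60 * ε) ^ (1 - θ) * B ^ θ ≤ η / 2 := by
    refine le_trans ?_ hεδ1
    have : (60 * ε) ^ (1 - θ) ≤ (60 * ε1) ^ (1 - θ) :=
      Real.rpow_le_rpow (by positivity) (by linarith) (by linarith)
    exact mul_le_mul_of_nonneg_right this (by positivity)
  refine ⟨ε, hε0, hε1, ?_⟩
  intro L g hL hgd hgn H1 H2 u hu
  obtain ⟨f, hfc, hfd, hfe⟩ := Pool.Agent.H296R2.LE.exists_log (by linarith : 0 < 5 - η0 / 4) hgd hgn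
  have hc5 : (5 : ℂ) ∈ ball (5 : ℂ) (16 / 5) := mem_ball_self (by norm_num)
  have hgc := H2 5 hc5
  have hgc0 : 0 < ‖g 5‖ := lt_of_lt_of_le (Real.exp_pos _) hgc.1
  have hnorm : ∀ z ∈ ball (5 : ℂ) (5 - η0 / 4), ‖g z‖ = ‖g 5‖ * Real.exp (f z).re := by
    intro z hz
    rw [hfe z hz, norm_mul, Complex.norm_exp]
  have hup : ∀ z ∈ ball (5 : ℂ) (5 - η0 / 4), ∀ A : ℝ, ‖g z‖ ≤ Real.exp (A * L) → (f z).re ≤ (A + ε) * L := by
    intro z hz A hA
    rw [hnorm z hz] at hA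
    have h1 : Real.exp (-(ε * L)) * Real.exp (f z).re ≤ Real.exp (A * L) :=
      (mul_le_mul_of_nonneg_right hgc.1 (Real.exp_pos _).le).trans hA
    rw [← Real.exp_add, Real.exp_le_exp] at h1
    linarith
  have hfdo : DifferentiableOn ℂ f (ball (5 : ℂ) (5 - η0 / 4)) := fun z hz =>
    (hfd z hz).differentiableAt.differentiableWithinAt
  have hbig : ∀ z ∈ ball (5 : ℂ) (5 - η0 / 2), ‖f z‖ ≤ B * L := by
    intro z hz
    have hM : 0 < (K0 + 1) * L := by positivity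
    have h1 := Pool.Agent.H986R2.K4.SABAux.bc (f := f) (c := 5) (r := 5 - η0 / 2) (R := 5 - η0 / 4) hM hfdo
      (fun w hw => by
        have := hup w hw K0 (H1 w hw)
        refine this.trans (mul_le_mul_of_nonneg_right (by linarith) hL.le)) hfc (by linarith)
      (by linarith) (ball_subset_closedBall hz)
    refine h1.trans ?_
    have e : 5 - η0 / 4 - (5 - η0 / 2) = η0 / 4 := by ring
    rw [e, hB, div_le_iff₀ (by positivity)]
    have e2 : 80 * (K0 + 1) / η0 * L * (η0 / 4) = 20 * ((K0 + 1) * L) := by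
      field_simp
      ring
    rw [e2]
    nlinarith
  have hsmall : ∀ z ∈ closedBall (5 : ℂ) 3, ‖f z‖ ≤ 60 * ε * L := by
    intro z hz
    have hM : 0 < 2 * ε * L := by positivity
    have hsub : ball (5 : ℂ) (16 / 5) ⊆ ball (5 : ℂ) (5 - η0 / 4) := ball_subset_ball (by linarith)
    have h1 := Pool.Agent.H986R2.K4.SABAux.bc (f := f) (c := 5) (r := 3) (R := 16 / 5) hM
      (hfdo.mono hsub) (fun w hw => by
      have := hup w (hsub hw) ε (H2 w hw).2
      refine this.trans (le_of_eq ?_)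
      ring) hfc (by norm_num) (by norm_num) hz
    refine h1.trans (le_of_eq ?_)
    ring
  have hfu : ‖f u‖ ≤ η / 2 * L := by
    have h1 := h3c f 5 (60 * ε * L) (B * L) (by positivity)
      (mul_le_mul_of_nonneg_right (by linarith) hL.le)
      (hfdo.mono (ball_subset_ball (by linarith))) hsmall hbig u hu
    refine h1.trans ?_
    rw [Real.mul_rpow (by positivity) hL.le, Real.mul_rpow hB0.le hL.le]
    have h2 : L ^ (1 - θ) * L ^ θ = L := by
      rw [← Real.rpow_add hL]; simp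
    calc (60 * ε) ^ (1 - θ) * L ^ (1 - θ) * (B ^ θ * L ^ θ)
        = ((60 * ε) ^ (1 - θ) * B ^ θ) * (L ^ (1 - θ) * L ^ θ) := by ring
      _ ≤ η / 2 * L := by rw [h2]; exact mul_le_mul_of_nonneg_right hεδ hL.le
  have hfre : (f u).re ≤ η / 2 * L := (Complex.re_le_norm _).trans hfu
  have hu5 : u ∈ ball (5 : ℂ) (5 - η0 / 4) := by
    rw [mem_closedBall] at hu; rw [mem_ball]; linarith
  rw [hnorm u hu5]
  calc ‖g 5‖ * Real.exp (f u).re ≤ Real.exp (ε * L) * Real.exp (f u).re :=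
        mul_le_mul_of_nonneg_right hgc.2 (Real.exp_pos _).le
    _ = Real.exp (ε * L + (f u).re) := (Real.exp_add _ _).symm
    _ ≤ Real.exp (η * L) := by
        rw [Real.exp_le_exp]
        have : ε * L ≤ η / 2 * L := mul_le_mul_of_nonneg_right hεη hL.le
        linarith

/-- few zeros -/
theorem sabZ (η0 η K0 : ℝ) (hη0 : 0 < η0) (hη04 : η0 ≤ 1 / 4) (hη : 0 < η) (hK0 : 0 < K0) :
    ∃ ε : ℝ, 0 < ε ∧ ∀ (L : ℝ) (F : ℂ → ℂ), 0 < L → Differentiable ℂ F →
      (∀ z ∈ closedBall (5 : ℂ) 5, ‖F z‖ ≤ Real.exp (K0 * L)) →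
      (∀ z ∈ closedBall (5 : ℂ) (7 / 2), Real.exp (-(ε * L)) ≤ ‖F z‖ ∧ ‖F z‖ ≤ Real.exp (ε * L)) →
      (∀ S : Finset ℂ, (∀ z ∈ S, F z = 0 ∧ z ∈ closedBall (5 : ℂ) (5 - η0 / 4)) →
        ∑ z ∈ S, (analyticOrderNatAt F z : ℝ) ≤ ε * L) →
      ∀ z ∈ closedBall (5 : ℂ) (5 - η0), ‖F z‖ ≤ Real.exp (η * L) := by
  obtain ⟨ε1, hε10, hε11, hB⟩ := sabB η0 (η / 2) (K0 + 1) hη0 hη04 (by linarith) (by linarith)
  obtain ⟨q, hq⟩ : ∃ q : ℝ, q = Real.log (8 / η0) := ⟨_, rfl⟩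
  have hq0 : 0 < q := by
    rw [hq]; apply Real.log_pos
    rw [lt_div_iff₀ hη0]; linarith
  have hq1 : Real.exp q = 8 / η0 := by rw [hq, Real.exp_log (by positivity)]
  obtain ⟨ε, hε⟩ : ∃ ε : ℝ, ε = min (ε1 / 5) (min (1 / q) (η / 6)) := ⟨_, rfl⟩
  have hε0 : 0 < ε := by rw [hε]; exact lt_min (by linarith) (lt_min (by positivity) (by linarith))
  have e1 : ε ≤ ε1 / 5 := by rw [hε]; exact min_le_left _ _
  have e2 : ε ≤ 1 / q := by rw [hε]; exact (min_le_right _ _).trans (min_le_left _ _)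
  have e3 : ε ≤ η / 6 := by rw [hε]; exact (min_le_right _ _).trans (min_le_right _ _)
  have e2' : ε * q ≤ 1 := by rwa [le_div_iff₀ hq0] at e2
  refine ⟨ε, hε0, ?_⟩
  intro L F hL hF H1 H2 H3 u hu
  have hF5 : F 5 ≠ 0 := by
    have := (H2 5 (mem_closedBall_self (by norm_num))).1
    rw [← norm_pos_iff]
    exact lt_of_lt_of_le (Real.exp_pos _) this
  have hfin := zfin hF ⟨5, hF5⟩ (isCompact_closedBall (5 : ℂ) (5 - η0 / 4))
  obtain ⟨Z, hZ⟩ : ∃ Z : Finset ℂ, Z = hfin.toFinset := ⟨_, rfl⟩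
  have hZm : ∀ z, z ∈ Z ↔ z ∈ closedBall (5 : ℂ) (5 - η0 / 4) ∧ F z = 0 := by
    intro z; rw [hZ, Set.Finite.mem_toFinset]; rfl
  obtain ⟨G, hG, hGZ, hFG⟩ := fac Z hF ⟨5, hF5⟩
  obtain ⟨N, hN⟩ : ∃ N : ℕ, N = ∑ z ∈ Z, analyticOrderNatAt F z := ⟨_, rfl⟩
  have hNL : (N : ℝ) ≤ ε * L := by
    have := H3 Z (fun z hz => ⟨((hZm z).1 hz).2, ((hZm z).1 hz).1⟩)
    rw [hN]; push_cast; exact this
  -- products
  have hlow : ∀ (w : ℂ) (a : ℝ), 0 ≤ a → (∀ z ∈ Z, a ≤ ‖w - z‖) →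
      a ^ N ≤ ‖∏ z ∈ Z, (w - z) ^ (analyticOrderNatAt F z)‖ := by
    intro w a ha hw
    rw [norm_prod, hN, ← Finset.prod_pow_eq_pow_sum]
    refine Finset.prod_le_prod (fun z _ => by positivity) fun z hz => ?_
    rw [norm_pow]
    exact pow_le_pow_left₀ ha (hw z hz) _
  have hupp : ∀ (w : ℂ) (a : ℝ), (∀ z ∈ Z, ‖w - z‖ ≤ a) →
      ‖∏ z ∈ Z, (w - z) ^ (analyticOrderNatAt F z)‖ ≤ a ^ N := by
    intro w a hw
    rw [norm_prod, hN, ← Finset.prod_pow_eq_pow_sum]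
    refine Finset.prod_le_prod (fun z _ => norm_nonneg _) fun z hz => ?_
    rw [norm_pow]
    exact pow_le_pow_left₀ (norm_nonneg _) (hw z hz) _
  have h10 : ∀ w ∈ closedBall (5 : ℂ) 5, ∀ z ∈ Z, ‖w - z‖ ≤ 10 := by
    intro w hw z hz
    have h1 := ((hZm z).1 hz).1
    rw [mem_closedBall] at h1 hw
    have := dist_triangle_right w z 5
    rw [← dist_eq_norm]
    linarith
  have e10 : (10 : ℝ) ^ N ≤ Real.exp (3 * ε * L) := by
    have a1 : (10 : ℝ) ≤ Real.exp 3 := by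
      have h8 : Real.exp 3 = Real.exp 1 ^ 3 := by rw [← Real.exp_nat_mul]; norm_num
      rw [h8]
      have h9 := Real.exp_one_gt_d9
      calc (10 : ℝ) ≤ (2.7182818283 : ℝ) ^ 3 := by norm_num
        _ ≤ Real.exp 1 ^ 3 := by gcongr
    calc (10 : ℝ) ^ N ≤ (Real.exp 3) ^ N := by gcongr
      _ = Real.exp (N * 3) := by rw [← Real.exp_nat_mul]
      _ ≤ _ := by apply Real.exp_le_exp.2; linarith
  -- G on the big ball
  have hGbig : ∀ w ∈ closedBall (5 : ℂ) (5 - η0 / 8), ‖G w‖ ≤ Real.exp ((K0 + 1) * L) := by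
    intro w hw
    refine Complex.norm_le_of_forall_mem_frontier_norm_le (U := ball (5 : ℂ) (5 - η0 / 8)) isBounded_ball
      hG.diffContOnCl ?_ (by rw [closure_ball _ (by linarith)]; exact hw)
    intro z hz
    rw [frontier_ball _ (by linarith), mem_sphere] at hz
    have hd : ∀ y ∈ Z, η0 / 8 ≤ ‖z - y‖ := by
      intro y hy
      have h1 := ((hZm y).1 hy).1
      rw [mem_closedBall] at h1
      have := dist_triangle z y 5
      rw [← dist_eq_norm]
      linarith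
    have hp := hlow z (η0 / 8) (by positivity) hd
    have hz5 : z ∈ closedBall (5 : ℂ) 5 := by rw [mem_closedBall]; linarith
    have hFz := H1 z hz5
    rw [hFG z, norm_mul] at hFz
    have h8 : (η0 / 8) ^ N * ‖G z‖ ≤ Real.exp (K0 * L) :=
      (mul_le_mul_of_nonneg_right hp (norm_nonneg _)).trans hFz
    have h9 : (η0 / 8) ^ N = Real.exp (-(N * q)) := by
      rw [Real.exp_neg, Real.exp_nat_mul, hq1, ← inv_pow]
      congr 1
      field_simp
    rw [h9] at h8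
    calc ‖G z‖ = Real.exp (N * q) * (Real.exp (-(N * q)) * ‖G z‖) := by
          rw [← mul_assoc, ← Real.exp_add, add_neg_cancel, Real.exp_zero, one_mul]
      _ ≤ Real.exp (N * q) * Real.exp (K0 * L) := mul_le_mul_of_nonneg_left h8 (Real.exp_pos _).le
      _ = Real.exp (N * q + K0 * L) := (Real.exp_add _ _).symm
      _ ≤ _ := by
          apply Real.exp_le_exp.2
          have : (N : ℝ) * q ≤ ε * L * q := mul_le_mul_of_nonneg_right hNL hq0.le
          have h5 : ε * q * L ≤ 1 * L := mul_le_mul_of_nonneg_right e2' hL.le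
          linarith
  have hGn : ∀ z ∈ ball (5 : ℂ) (5 - η0 / 4), G z ≠ 0 := by
    intro z hz h0
    have hzF : F z = 0 := by rw [hFG z, h0, mul_zero]
    exact hGZ z ((hZm z).2 ⟨ball_subset_closedBall hz, hzF⟩) h0
  have hGs : ∀ z ∈ ball (5 : ℂ) (16 / 5), Real.exp (-(ε1 * L)) ≤ ‖G z‖ ∧ ‖G z‖ ≤ Real.exp (ε1 * L) := by
    intro z hz
    rw [mem_ball] at hz
    obtain ⟨b1, b2⟩ := H2 z (by rw [mem_closedBall]; linarith)
    have hd : ∀ y ∈ Z, 3 / 10 ≤ ‖z - y‖ := by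
      intro y hy
      by_contra hc
      push Not at hc
      have h1 := dist_triangle y z 5
      rw [dist_comm y z, dist_eq_norm z y] at h1
      have h2 := (H2 y (by rw [mem_closedBall]; linarith)).1
      rw [((hZm y).1 hy).2, norm_zero] at h2
      have := Real.exp_pos (-(ε * L))
      linarith
    have hp := hlow z (3 / 10) (by norm_num) hd
    have hp' := hupp z 10 (h10 z (by rw [mem_closedBall]; linarith))
    rw [hFG z, norm_mul] at b1 b2
    have e310 : Real.exp (-(3 * ε * L)) ≤ (3 / 10 : ℝ) ^ N := by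
      have a1 : (10 : ℝ) ^ N * (3 / 10) ^ N = 3 ^ N := by rw [← mul_pow]; norm_num
      have a2 : (1 : ℝ) ≤ 3 ^ N := one_le_pow₀ (by norm_num)
      rw [Real.exp_neg, inv_le_comm₀ (Real.exp_pos _) (by positivity)]
      refine le_trans ?_ e10
      rw [inv_le_comm₀ (by positivity) (by positivity), ← inv_pow]
      apply pow_le_pow_left₀ (by norm_num)
      norm_num
    constructor
    · have h3 : Real.exp (-(ε * L)) ≤ Real.exp (3 * ε * L) * ‖G z‖ :=
        b1.trans (mul_le_mul_of_nonneg_right (hp'.trans e10) (norm_nonneg _))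
      calc Real.exp (-(ε1 * L)) ≤ Real.exp (-(3 * ε * L)) * Real.exp (-(ε * L)) := by
            rw [← Real.exp_add]
            apply Real.exp_le_exp.2
            have : ε * L ≤ ε1 / 5 * L := mul_le_mul_of_nonneg_right e1 hL.le
            have h6 : 0 < ε * L := by positivity
            linarith
        _ ≤ Real.exp (-(3 * ε * L)) * (Real.exp (3 * ε * L) * ‖G z‖) :=
            mul_le_mul_of_nonneg_left h3 (Real.exp_pos _).le
        _ = ‖G z‖ := by rw [← mul_assoc, ← Real.exp_add, neg_add_cancel, Real.exp_zero, one_mul]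
    · have h3 : Real.exp (-(3 * ε * L)) * ‖G z‖ ≤ Real.exp (ε * L) :=
        (mul_le_mul_of_nonneg_right (e310.trans hp) (norm_nonneg _)).trans b2
      calc ‖G z‖ = Real.exp (3 * ε * L) * (Real.exp (-(3 * ε * L)) * ‖G z‖) := by
            rw [← mul_assoc, ← Real.exp_add, add_neg_cancel, Real.exp_zero, one_mul]
        _ ≤ Real.exp (3 * ε * L) * Real.exp (ε * L) := mul_le_mul_of_nonneg_left h3 (Real.exp_pos _).le
        _ = Real.exp (3 * ε * L + ε * L) := (Real.exp_add _ _).symm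
        _ ≤ _ := by
            apply Real.exp_le_exp.2
            have : ε * L ≤ ε1 / 5 * L := mul_le_mul_of_nonneg_right e1 hL.le
            have h6 : 0 < ε * L := by positivity
            linarith
  have hGu := hB L G hL hG.differentiableOn hGn (fun z hz => hGbig z (by
    rw [mem_ball] at hz; rw [mem_closedBall]; linarith)) hGs u hu
  rw [hFG u, norm_mul]
  rw [mem_closedBall] at hu
  have hp' := hupp u 10 (h10 u (by rw [mem_closedBall]; linarith))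
  calc ‖∏ z ∈ Z, (u - z) ^ (analyticOrderNatAt F z)‖ * ‖G u‖
      ≤ Real.exp (3 * ε * L) * Real.exp (η / 2 * L) :=
        mul_le_mul (hp'.trans e10) hGu (norm_nonneg _) (Real.exp_pos _).le
    _ = Real.exp (3 * ε * L + η / 2 * L) := (Real.exp_add _ _).symm
    _ ≤ _ := by
        apply Real.exp_le_exp.2
        have : ε * L ≤ η / 6 * L := mul_le_mul_of_nonneg_right e3 hL.le
        linarith

end Pool.Agent.W186.LH
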