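import Pool.Agent.W186.LH.Ex

set_option autoImplicit false

/-!
# From exponents of zeta to the majorant
-/

namespace Pool.Agent.W186.LH

open Complex Filter Topology MeasureTheory Set
open Pool.Agent.H24R2.JP (XX HH Om)
open Pool.Agent.H986R2.DBN (JT XT Ht)
open Pool.Agent.W186.HZ
open Pool.Agent.W186.SN (UB plk)

/-- the condition on zeta -/
def Dx (x : ℝ) : Prop := ∀ r : ℝ, 0 ≤ r → r ≤ 1 / 2 → Ex (1 / 2 + r) (max (x - r) 0 ^ 2 / (4 * x))

lemma ub_one : UB (phx 1) := by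
  intro ε R hε hR
  obtain ⟨T1, hT1, hp⟩ := prof (y := 1 / 2) (by norm_num) le_rfl ct_half ε R hε hR
  refine ⟨T1, hT1, fun T hT u hu0 hu1 hu2 => (hp T hT u hu0 hu1 hu2).trans ?_⟩
  have hOp : 0 ≤ Om T := by
    unfold Om
    have := Real.log_nonneg (show (1 : ℝ) ≤ T by linarith)
    linarith
  apply mul_le_mul_of_nonneg_right _ (norm_nonneg _)
  apply Real.exp_le_exp.2
  apply mul_le_mul_of_nonneg_left _ hOp
  have : max u.re (1 / 2) ≤ phx 1 u.re := by
    unfold phx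
    have h1 : 0 ≤ max (1 - u.re) 0 ^ 2 / (2 * 1) := by positivity
    apply max_le
    · linarith
    · rcases le_total (1 - u.re) 0 with h2 | h2
      · linarith
      · rw [max_eq_left h2]
        nlinarith [sq_nonneg u.re]
  linarith

lemma ub_of {x : ℝ} (hx : 0 < x) (hx1 : x ≤ 1) (hD : Dx x) : UB (phx x) := by
  intro ε' R hε' hR
  obtain ⟨ε, hε, hεε', hε1⟩ : ∃ ε : ℝ, 0 < ε ∧ ε ≤ ε' ∧ ε ≤ 1 :=
    ⟨min ε' 1, lt_min hε' one_pos, min_le_left _ _, min_le_right _ _⟩
  obtain ⟨N, hN⟩ : ∃ N : ℕ, N = ⌈4 / ε⌉₊ + 1 := ⟨_, rfl⟩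
  have hN0 : (0 : ℝ) < N := by rw [hN]; push_cast; positivity
  have hN1 : 4 / ε ≤ N := by
    rw [hN]; push_cast
    have := Nat.le_ceil (4 / ε)
    linarith
  obtain ⟨h, hh⟩ : ∃ h : ℝ, h = (1 / 2) / N := ⟨_, rfl⟩
  have hh0 : 0 < h := by rw [hh]; positivity
  have hh1 : h ≤ ε / 4 := by
    rw [hh, div_le_iff₀ hN0]
    rw [div_le_iff₀ hε] at hN1
    nlinarith
  have hNh : N * h = 1 / 2 := by rw [hh]; field_simp
  obtain ⟨T1, hT1, hp⟩ := prof (y := 1 / 2) (by norm_num) le_rfl ct_half (ε / 2) R (by linarith) hR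
  have hk : ∀ k ∈ Finset.Icc 1 N, ∀ᶠ T : ℝ in atTop, ∀ u : ℂ, |u.re| ≤ k * h → |u.im| ≤ 1 →
      ‖XX (I * T + u)‖ ≤ Real.exp (Om T * (phx x (k * h) + ε / 2)) * ‖HH (I * T)‖ := by
    intro k hk
    rw [Finset.mem_Icc] at hk
    have k1 : (1 : ℝ) ≤ k := by exact_mod_cast hk.1
    have k2 : (k : ℝ) ≤ N := by exact_mod_cast hk.2
    have e1 : 0 < (k : ℝ) * h := by positivity
    have e2 : (k : ℝ) * h ≤ 1 / 2 := by
      rw [← hNh]; gcongr
    obtain ⟨p, hp⟩ : ∃ p : ℝ, p = max (x - k * h) 0 ^ 2 / (4 * x) := ⟨_, rfl⟩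
    have hp0 : 0 ≤ p := by rw [hp]; positivity
    have hp1 : p ≤ 1 / 4 := by
      rw [hp, div_le_iff₀ (by positivity)]
      have h1 : max (x - k * h) 0 ≤ x := max_le (by linarith) hx.le
      have h2 : max (x - k * h) 0 ^ 2 ≤ x ^ 2 := pow_le_pow_left₀ (le_max_right _ _) h1 2
      nlinarith
    obtain ⟨C, hz⟩ := hD (k * h) e1.le e2 (ε / 8) (by linarith)
    rw [← hp] at hz
    obtain ⟨T0, hT0, h0⟩ := plk (k * h) (p + ε / 8) (max C 1) e1 (by linarith) (by linarith)
      (by linarith) (lt_of_lt_of_le one_pos (le_max_right _ _)) (by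
        intro t ht
        have h3 := hz t (by rw [abs_of_nonneg (by linarith)]; linarith)
        rw [abs_of_nonneg (by linarith : 0 ≤ t)] at h3
        have e : (1 / 2 + ((k * h : ℝ) : ℂ) + t * I) = ((1 / 2 + k * h : ℝ) : ℂ) + t * I := by
          push_cast; ring
        rw [e]
        refine h3.trans ?_
        exact mul_le_mul_of_nonneg_right (le_max_left _ _) (by positivity)) (ε / 4) (by linarith)
    filter_upwards [eventually_ge_atTop T0] with T hT u hu1 hu2
    refine (h0 T hT u hu1 hu2).trans (le_of_eq ?_)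
    congr 3
    unfold phx
    rw [hp]
    field_simp
    ring
  rw [← Filter.eventually_all_finset] at hk
  obtain ⟨T2, hT2⟩ := Filter.eventually_atTop.1 hk
  refine ⟨max T1 T2, hT1.trans (le_max_left _ _), fun T hT u hu0 hu1 hu2 => ?_⟩
  have g1 : T1 ≤ T := (le_max_left _ _).trans hT
  have g2 : T2 ≤ T := (le_max_right _ _).trans hT
  have hOp : 0 ≤ Om T := by
    unfold Om
    have := Real.log_nonneg (show (1 : ℝ) ≤ T by linarith)
    linarith
  have hb := hp T g1 u hu0 hu1 hu2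
  have hmono : ∀ a b : ℝ, a ≤ b → Real.exp (Om T * a) * ‖HH (I * T)‖ ≤ Real.exp (Om T * b) * ‖HH (I * T)‖ := by
    intro a b hab
    have := Real.exp_le_exp.2 (mul_le_mul_of_nonneg_left hab hOp)
    gcongr
  have hge : u.re ≤ phx x u.re := by
    unfold phx
    have : 0 ≤ max (x - u.re) 0 ^ 2 / (2 * x) := by positivity
    linarith
  rcases le_or_gt (1 / 2) u.re with c1 | c1
  · refine hb.trans (hmono _ _ ?_)
    rw [max_eq_left c1]; linarith
  · obtain ⟨k, hkd⟩ : ∃ k : ℕ, k = ⌊u.re / h⌋₊ + 1 := ⟨_, rfl⟩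
    have hq0 : 0 ≤ u.re / h := div_nonneg hu0 hh0.le
    have k1 := Nat.floor_le hq0
    have k2 := Nat.lt_floor_add_one (u.re / h)
    rw [le_div_iff₀ hh0] at k1
    rw [div_lt_iff₀ hh0] at k2
    have k2' : u.re ≤ k * h := by rw [hkd]; push_cast; exact k2.le
    have k1' : k * h ≤ u.re + h := by rw [hkd]; push_cast; linarith
    have k3 : k ∈ Finset.Icc 1 N := by
      rw [Finset.mem_Icc]
      constructor
      · omega
      · have h5 : (⌊u.re / h⌋₊ : ℝ) * h < N * h := by rw [hNh]; linarith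
        have h6 := lt_of_mul_lt_mul_right h5 hh0.le
        have h7 : ⌊u.re / h⌋₊ < N := by exact_mod_cast h6
        omega
    refine (hT2 T g2 k k3 u (by rw [abs_of_nonneg hu0]; exact k2') hu2).trans (hmono _ _ ?_)
    have h8 : phx x (k * h) ≤ phx x u.re + h := by
      unfold phx
      have h9 : max (x - k * h) 0 ^ 2 / (2 * x) ≤ max (x - u.re) 0 ^ 2 / (2 * x) := by
        apply div_le_div_of_nonneg_right _ (by positivity)
        apply pow_le_pow_left₀ (le_max_right _ _)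
        exact max_le_max (by linarith) le_rfl
      linarith
    linarith

end Pool.Agent.W186.LH
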