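import Pool.Agent.W186.LH.UBx

set_option autoImplicit false

/-!
# The dictionary between the growth of zeta and the zeros of the heat flow
-/

namespace Pool.Agent.W186.LH

open Complex Filter Topology MeasureTheory Set
open Pool.Agent.H24R2.JP (XX HH Om)
open Pool.Agent.H986R2.DBN (JT XT Ht)
open Pool.Agent.W186.HZ
open Pool.Agent.W186.SN (UB)

/-- few zeros away from the real axis -/
def Few (κ : ℝ) : Prop := ∀ δ ε : ℝ, 0 < δ → 0 < ε → ∃ t0 : ℝ, 0 < t0 ∧ ∀ t : ℝ, 0 < t → t < t0 →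
  ∀ T : ℝ, Real.exp (κ / t) ≤ T → ∀ S : Finset ℂ,
    (∀ z ∈ S, Ht t z = 0 ∧ |z.re - T| ≤ 1 ∧ δ ≤ |z.im|) →
    ∑ z ∈ S, (analyticOrderNatAt (Ht t) z : ℝ) ≤ ε * Real.log T

lemma Few.mono {κ κ' : ℝ} (h : Few κ) (hκ : κ ≤ κ') : Few κ' := by
  intro δ ε hδ hε
  obtain ⟨t0, ht0, h1⟩ := h δ ε hδ hε
  refine ⟨t0, ht0, fun t h2 h3 T hT => h1 t h2 h3 T (le_trans (Real.exp_le_exp.2 ?_) hT)⟩
  exact div_le_div_of_nonneg_right hκ h2.le

lemma Ht_ord {t : ℝ} (ht : 0 ≤ t) (hne : ∃ u, XT (t / 4) u ≠ 0) (z : ℂ) :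
    analyticOrderNatAt (Ht t) z = analyticOrderNatAt (XT (t / 4)) (I * z / 2) := by
  have h1 : Differentiable ℂ (XT (t / 4)) := fun z =>
    Pool.Agent.H986R2.DBN.KerAux.hasDerivAt_XT (by positivity) z
  have h2 := ord_tr (G := XT (t / 4)) (E := fun _ => (1 / 64 : ℂ)) h1 hne (a := I / 2) (b := 0)
    (by simp) (by fun_prop) (fun _ => by norm_num) z
  have e : Ht t = fun z => XT (t / 4) (I / 2 * z + 0) * (1 / 64) := by
    funext z
    have h := Pool.Agent.H986R2.DBN.classHA t 0 z ht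
    rw [iteratedDeriv_zero, iteratedDeriv_zero, pow_zero] at h
    rw [h]
    have e2 : I * z / 2 = I / 2 * z + 0 := by ring
    rw [e2]
    ring
  rw [e, h2]
  congr 1
  ring

lemma XT_ne_ev {τ : ℝ} (hτ : 0 < τ) (hτ8 : τ ≤ 1 / 8) : ∃ u, XT τ u ≠ 0 := by
  obtain ⟨C, hC, hnz⟩ := Pool.Agent.H986R2.DBN.heatNZA
  exact ⟨_, hnz τ hτ hτ8 (1 / 2) (Real.exp (C / τ)) (by norm_num) le_rfl le_rfl⟩

/-- the forward direction -/
lemma fewF {x : ℝ} (hx : 0 < x) (hφ : UB (phx x)) : Few (4 * x) := by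
  intro δ ε hδ hε
  obtain ⟨C, hC, hnz⟩ := Pool.Agent.H986R2.DBN.heatNZA
  obtain ⟨d, hd⟩ : ∃ d : ℝ, d = min (δ / 2) 1 := ⟨_, rfl⟩
  have hd0 : 0 < d := by rw [hd]; exact lt_min (by linarith) one_pos
  have hd1 : d ≤ δ / 2 := by rw [hd]; exact min_le_left _ _
  have hd2 : d ≤ 1 := by rw [hd]; exact min_le_right _ _
  obtain ⟨X, hX⟩ : ∃ X : ℝ, X = max x (C + 1) := ⟨_, rfl⟩
  have hXx : x ≤ X := by rw [hX]; exact le_max_left _ _
  have hXC : C + 1 ≤ X := by rw [hX]; exact le_max_right _ _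
  obtain ⟨η, T0, hη, hT0, hc⟩ := cnt_half hx hφ X d ε hXx hd0 hd2 hε
  refine ⟨min (min (1 / 2) η) (4 * x / (2 * T0)), ?_, ?_⟩
  · exact lt_min (lt_min (by norm_num) hη) (by positivity)
  intro t ht0 ht1 T hT S hS
  have t1 : t < 1 / 2 := ht1.trans_le ((min_le_left _ _).trans (min_le_left _ _))
  have t2 : t < η := ht1.trans_le ((min_le_left _ _).trans (min_le_right _ _))
  have t3 : t < 4 * x / (2 * T0) := ht1.trans_le (min_le_right _ _)
  obtain ⟨τ, hτ⟩ : ∃ τ : ℝ, τ = t / 4 := ⟨_, rfl⟩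
  have hτ0 : 0 < τ := by rw [hτ]; linarith
  have hτ8 : τ ≤ 1 / 8 := by rw [hτ]; linarith
  have hTT0 : 2 * T0 ≤ T := by
    have h1 := Real.add_one_le_exp (4 * x / t)
    have h2 : 2 * T0 < 4 * x / t := by
      rw [lt_div_iff₀ ht0]
      rw [lt_div_iff₀ (by positivity)] at t3
      linarith
    linarith
  have hTp : 0 < T := by linarith
  have hlog : 4 * x / t ≤ Real.log T := by
    rw [Real.le_log_iff_exp_le hTp]
    exact hT
  have hlog2 := Real.log_two_lt_d9
  have hlog2' := Real.log_two_gt_d9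
  have elog : Real.log (T / 2) = Real.log T - Real.log 2 := Real.log_div hTp.ne' (by norm_num)
  have hOme : 2 * τ * Om (T / 2) = τ * (Real.log T - Real.log 2) := by
    unfold Om; rw [elog]; ring
  have hOm : x - η ≤ 2 * τ * Om (T / 2) := by
    rw [hOme]
    have h1 : τ * (4 * x / t) ≤ τ * Real.log T := mul_le_mul_of_nonneg_left hlog hτ0.le
    have e2 : τ * (4 * x / t) = x := by rw [hτ]; field_simp
    rw [e2] at h1
    have h2 : τ * Real.log 2 ≤ τ * 1 := mul_le_mul_of_nonneg_left (by linarith) hτ0.le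
    have h3 : τ ≤ t := by rw [hτ]; linarith
    linarith only [h1, h2, h3, t2]
  have hlT : 0 ≤ Real.log T := Real.log_nonneg (by linarith)
  rcases S.eq_empty_or_nonempty with rfl | ⟨z0, hz0⟩
  · simp only [Finset.sum_empty]
    positivity
  have hpt : ∀ z ∈ S, XT τ (I * z / 2) = 0 ∧ d ≤ |(I * z / 2).re| ∧ |(I * z / 2).im - T / 2| ≤ 1 / 2 := by
    intro z hz
    obtain ⟨z1, z2, z3⟩ := hS z hz
    have hwr : (I * z / 2).re = -z.im / 2 := by simp
    have hwi : (I * z / 2).im = z.re / 2 := by simp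
    refine ⟨by rw [hτ]; exact (Ht_XT ht0.le z).1 z1, ?_, ?_⟩
    · rw [hwr, abs_div, abs_neg, abs_of_pos (by norm_num : (0 : ℝ) < 2)]
      linarith
    · rw [hwi]
      rw [abs_le] at z2 ⊢
      constructor <;> linarith
  rcases le_or_gt (2 * τ * Om (T / 2)) X with hcs | hcs
  · have hne := XT_ne_ev hτ0 hτ8
    classical
    have h5 := hc (T / 2) τ (by linarith) hτ0 hOm hcs (S.image fun z => I * z / 2) (by
      intro w hw
      rw [Finset.mem_image] at hw
      obtain ⟨z, hz, rfl⟩ := hw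
      exact hpt z hz)
    rw [Finset.sum_image (by
      intro a _ b _ hab
      simpa using hab)] at h5
    have e : ∑ z ∈ S, (analyticOrderNatAt (Ht t) z : ℝ) = ∑ z ∈ S, (analyticOrderNatAt (XT τ) (I * z / 2) : ℝ) := by
      refine Finset.sum_congr rfl fun z _ => ?_
      rw [Ht_ord ht0.le (by rw [← hτ]; exact hne), ← hτ]
    rw [e]
    refine h5.trans ?_
    apply mul_le_mul_of_nonneg_left _ hε.le
    unfold Om
    rw [elog]
    linarith
  · exfalso
    obtain ⟨w0, w1, w2⟩ := hpt z0 hz0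
    have hsy := XT_sym _ w0
    have hst := XT_strip hτ0.le w0
    have hpos : 0 < |(I * z0 / 2).re| := by linarith
    refine hnz τ hτ0 hτ8 _ _ hpos hst ?_ hsy
    rw [abs_le] at w2
    rw [hOme] at hcs
    have h2 : (C + 1) / τ ≤ Real.log (T / 2) := by
      rw [elog, div_le_iff₀ hτ0]; linarith
    have h3 : Real.exp ((C + 1) / τ) ≤ T / 2 := by
      rwa [Real.le_log_iff_exp_le (by linarith)] at h2
    have h4 : Real.exp (C / τ) + 1 ≤ Real.exp ((C + 1) / τ) := by
      have e1 : (C + 1) / τ = C / τ + 1 / τ := by ring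
      have e2 : 8 ≤ 1 / τ := by rw [le_div_iff₀ hτ0]; linarith
      have e3 := Real.add_one_le_exp (1 / τ)
      have e4 : 1 ≤ Real.exp (C / τ) := Real.one_le_exp (by positivity)
      rw [e1, Real.exp_add]
      nlinarith
    have h5 := le_abs_self (I * z0 / 2).im
    linarith

lemma phx_move {x x' r η : ℝ} (hx : 0 < x) (hη : 0 ≤ η) (h1 : x ≤ x') (h2 : x' ≤ x + η) (hηx : η ≤ x)
    (hr : 0 ≤ r) : phx x' r ≤ phx x r + 2 * η := by
  unfold phx
  obtain ⟨p, hp⟩ : ∃ p : ℝ, p = max (x - r) 0 := ⟨_, rfl⟩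
  have hp0 : 0 ≤ p := by rw [hp]; exact le_max_right _ _
  have hp1 : x - r ≤ p := by rw [hp]; exact le_max_left _ _
  have hp2 : p ≤ x := by rw [hp]; exact max_le (by linarith) hx.le
  rw [← hp]
  have a1 : max (x' - r) 0 ≤ p + η := max_le (by linarith) (by linarith)
  have a2 : max (x' - r) 0 ^ 2 ≤ (p + η) ^ 2 := pow_le_pow_left₀ (le_max_right _ _) a1 2
  have a3 : max (x' - r) 0 ^ 2 / (2 * x') ≤ (p + η) ^ 2 / (2 * x) :=
    div_le_div₀ (sq_nonneg _) a2 (by positivity) (by linarith)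
  have a4 : (p + η) ^ 2 / (2 * x) ≤ p ^ 2 / (2 * x) + 2 * η := by
    rw [div_le_iff₀ (by positivity)]
    have e2 : (p ^ 2 / (2 * x) + 2 * η) * (2 * x) = p ^ 2 + 4 * η * x := by
      field_simp
      ring
    rw [e2]
    have h3 : p * η ≤ x * η := mul_le_mul_of_nonneg_right hp2 hη
    have h4 : η * η ≤ η * x := mul_le_mul_of_nonneg_left hηx hη
    nlinarith
  linarith

/-- the backward direction -/
lemma fewB {x : ℝ} (hx : 0 < x) (h : Few (4 * x)) : Dx x := by
  intro r hr0 hr1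
  refine Ex_of _ _ (by positivity) fun ε hε => ?_
  obtain ⟨η, hη⟩ : ∃ η : ℝ, η = min (min (1 / 4) (ε / 8)) x := ⟨_, rfl⟩
  have hη0 : 0 < η := by rw [hη]; exact lt_min (lt_min (by norm_num) (by linarith)) hx
  have hη1 : η ≤ 1 / 4 := by rw [hη]; exact (min_le_left _ _).trans (min_le_left _ _)
  have hη2 : η ≤ ε / 8 := by rw [hη]; exact (min_le_left _ _).trans (min_le_right _ _)
  have hη3 : η ≤ x := by rw [hη]; exact min_le_right _ _
  obtain ⟨ε0, T1, hε0, hT1, hinv⟩ := invub x (x + η) η hx (by linarith) hη0 hη1 (by linarith)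
  obtain ⟨t0, ht0, hfew⟩ := h (η / 2) (ε0 / 44) (by linarith) (by positivity)
  obtain ⟨KH, hKH, hHH⟩ := Pool.Agent.H986R2.K4.hh
  obtain ⟨T3, hT3, hH⟩ := hHH 1 le_rfl
  obtain ⟨T4, hT4, hO⟩ := Om_large (max (max (4 * x / t0 + 1) (x / η + 1)) (max (16 * x) (KH / η)))
  refine ⟨max (max T1 T3) T4, fun T hT => ?_⟩
  have g1 : T1 ≤ T := ((le_max_left _ _).trans (le_max_left _ _)).trans hT
  have g3 : T3 ≤ T := ((le_max_right _ _).trans (le_max_left _ _)).trans hT
  have g4 : T4 ≤ T := (le_max_right _ _).trans hT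
  have hOm := hO T g4
  have hO1 : 4 * x / t0 + 1 ≤ Om T := ((le_max_left _ _).trans (le_max_left _ _)).trans hOm
  have hO2 : x / η + 1 ≤ Om T := ((le_max_right _ _).trans (le_max_left _ _)).trans hOm
  have hO3 : 16 * x ≤ Om T := ((le_max_left _ _).trans (le_max_right _ _)).trans hOm
  have hO4 : KH / η ≤ Om T := ((le_max_right _ _).trans (le_max_right _ _)).trans hOm
  rw [div_le_iff₀ hη0] at hO4
  have hT400 : 400 ≤ T := hT4.trans g4
  have hTp : 0 < T := by linarith
  have hl2 := Real.log_two_lt_d9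
  have hl2' := Real.log_two_gt_d9
  have elog : Real.log (T / 2) = 2 * Om T - Real.log 2 := by
    rw [Real.log_div hTp.ne' (by norm_num)]
    unfold Om
    ring
  have hxη : 0 < x / η := by positivity
  have hxt : 0 < 4 * x / t0 := by positivity
  have hlp : 0 < Real.log (T / 2) := by rw [elog]; linarith
  obtain ⟨t, ht⟩ : ∃ t : ℝ, t = 4 * x / Real.log (T / 2) := ⟨_, rfl⟩
  have htp : 0 < t := by rw [ht]; positivity
  have htt0 : t < t0 := by
    rw [ht, div_lt_iff₀ hlp, elog]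
    have : 4 * x = t0 * (4 * x / t0) := by field_simp
    nlinarith
  have hexp : Real.exp (4 * x / t) = T / 2 := by
    have : 4 * x / t = Real.log (T / 2) := by rw [ht]; field_simp
    rw [this, Real.exp_log (by linarith)]
  have ht8 : t / 4 ≤ 1 / 8 := by
    rw [ht, div_div, div_le_iff₀ (by positivity), elog]
    nlinarith
  have e2 : 2 * (t / 4) * Om T = x * (2 * Om T / Real.log (T / 2)) := by
    rw [ht]; field_simp
  have hx1 : x ≤ 2 * (t / 4) * Om T := by
    rw [e2]
    have : 1 ≤ 2 * Om T / Real.log (T / 2) := by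
      rw [le_div_iff₀ hlp, elog]; linarith
    nlinarith
  have hx2 : 2 * (t / 4) * Om T ≤ x + η := by
    rw [e2]
    have h3 : x * (2 * Om T / Real.log (T / 2)) = x + x * (Real.log 2 / Real.log (T / 2)) := by
      rw [elog]
      rw [elog] at hlp
      field_simp
      ring
    rw [h3]
    have h4 : x * (Real.log 2 / Real.log (T / 2)) ≤ η := by
      rw [← mul_div_assoc, div_le_iff₀ hlp, elog]
      have : x = η * (x / η) := by field_simp
      nlinarith
    linarith
  have hne := XT_ne_ev (by linarith : 0 < t / 4) ht8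
  have hCn : ∀ T' : ℝ, T / 2 ≤ T' → T' ≤ 2 * T → Cn (t / 4) T' (η / 4) (ε0 * Om T') := by
    intro T' hT'1 hT'2 S hS
    classical
    have hmaps : ∀ w ∈ S, ⌊w.im - T' + 11 / 2⌋₊ ∈ Finset.range 11 := by
      intro w hw
      obtain ⟨w0, w1, w2⟩ := hS w hw
      rw [abs_le] at w2
      rw [Finset.mem_range, Nat.floor_lt' (by norm_num)]
      push_cast
      linarith
    rw [← Finset.sum_fiberwise_of_maps_to hmaps]
    have hlT' : Real.log (2 * (T' + 6)) ≤ 4 * Om T' := by
      have h1 : 2 * (T' + 6) ≤ T' ^ 2 := by nlinarith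
      have h2 : Real.log (2 * (T' + 6)) ≤ Real.log (T' ^ 2) := Real.log_le_log (by linarith) h1
      rw [Real.log_pow] at h2
      unfold Om
      push_cast at h2
      linarith
    have hcell : ∀ j ∈ Finset.range 11,
        (∑ w ∈ S with ⌊w.im - T' + 11 / 2⌋₊ = j, (analyticOrderNatAt (XT (t / 4)) w : ℝ)) ≤
          ε0 / 11 * Om T' := by
      intro j hj
      rw [Finset.mem_range] at hj
      have hj1 : (j : ℝ) ≤ 10 := by
        have : j ≤ 10 := by omega
        exact_mod_cast this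
      have hj0 : (0 : ℝ) ≤ j := Nat.cast_nonneg j
      obtain ⟨c, hc⟩ : ∃ c : ℝ, c = 2 * (T' - 5 + j) := ⟨_, rfl⟩
      have key := hfew t htp htt0 c (by rw [hexp, hc]; linarith)
        ((S.filter fun w => ⌊w.im - T' + 11 / 2⌋₊ = j).image fun w => -(2 * I) * w) (by
        intro z hz
        rw [Finset.mem_image] at hz
        obtain ⟨w, hw, rfl⟩ := hz
        rw [Finset.mem_filter] at hw
        obtain ⟨hw1, hw2⟩ := hw
        obtain ⟨w0, w1, w2⟩ := hS w hw1
        rw [abs_le] at w2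
        have hzr : (-(2 * I) * w).re = 2 * w.im := by simp
        have hzi : (-(2 * I) * w).im = -(2 * w.re) := by simp
        have e : I * (-(2 * I) * w) / 2 = w := by
          have : I * (-(2 * I) * w) / 2 = -(I * I) * w := by ring
          rw [this, Complex.I_mul_I]; ring
        have h3 : 0 ≤ w.im - T' + 11 / 2 := by linarith
        have h4 := Nat.floor_le h3
        have h5 := Nat.lt_floor_add_one (w.im - T' + 11 / 2)
        rw [hw2] at h4 h5
        refine ⟨?_, ?_, ?_⟩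
        · rw [Ht_XT htp.le, e]; exact w0
        · rw [hzr, hc, abs_le]
          constructor <;> linarith
        · rw [hzi, abs_neg, abs_of_nonneg (by linarith)]
          linarith)
      rw [Finset.sum_image (by
        intro a _ b _ hab
        have h6 : (-(2 * I)) ≠ 0 := by simp
        exact mul_left_cancel₀ h6 hab)] at key
      have e3 : ∑ w ∈ S with ⌊w.im - T' + 11 / 2⌋₊ = j, (analyticOrderNatAt (XT (t / 4)) w : ℝ) =
          ∑ w ∈ S with ⌊w.im - T' + 11 / 2⌋₊ = j, (analyticOrderNatAt (Ht t) (-(2 * I) * w) : ℝ) := by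
        refine Finset.sum_congr rfl fun w _ => ?_
        rw [Ht_ord htp.le hne]
        have e : I * (-(2 * I) * w) / 2 = w := by
          have : I * (-(2 * I) * w) / 2 = -(I * I) * w := by ring
          rw [this, Complex.I_mul_I]; ring
        rw [e]
      rw [e3]
      refine key.trans ?_
      have h7 : Real.log c ≤ 4 * Om T' := by
        refine le_trans (Real.log_le_log (by rw [hc]; linarith) ?_) hlT'
        rw [hc]; linarith
      calc ε0 / 44 * Real.log c ≤ ε0 / 44 * (4 * Om T') := mul_le_mul_of_nonneg_left h7 (by positivity)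
        _ = _ := by ring
    refine (Finset.sum_le_sum hcell).trans ?_
    rw [Finset.sum_const, Finset.card_range, nsmul_eq_mul]
    apply le_of_eq
    push_cast
    ring
  have hXX := hinv T (t / 4) g1 (by linarith) hx1 hx2 hCn r hr0 (by linarith)
  have hphx := phx_move (x' := 2 * (t / 4) * Om T) (r := r) hx hη0.le hx1 hx2 hη3 hr0
  obtain ⟨-, d2, -, d3, -⟩ := hH T (r : ℂ) g3 (by
    rw [Complex.norm_real, Real.norm_eq_abs, abs_of_nonneg hr0]; linarith)
  rw [Complex.ofReal_re] at d3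
  have him : 0 < (I * (T : ℂ) + r).im := by simp; linarith
  have hz := Pool.Agent.H24R2.JP.zetaS.1 (I * T + r) him
  rw [add_comm (r : ℂ)] at hXX
  rw [hz, norm_mul] at hXX
  have e5 : (1 / 2 + (I * (T : ℂ) + r)) = ((1 / 2 + r : ℝ) : ℂ) + T * I := by push_cast; ring
  rw [e5] at hXX
  obtain ⟨Z, hZ⟩ : ∃ Z : ℝ, Z = ‖riemannZeta (((1 / 2 + r : ℝ) : ℂ) + T * I)‖ := ⟨_, rfl⟩
  rw [← hZ] at hXX ⊢
  have hZ0 : 0 ≤ Z := by rw [hZ]; exact norm_nonneg _
  have hHp : 0 < ‖HH (I * T)‖ := by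
    have h0 : HH (I * T) ≠ 0 := by
      apply Pool.Agent.H24R2.JP.StirAux.HH_ne
      simpa using hTp
    exact norm_pos_iff.2 h0
  have h8 : Real.exp (Om T * r - KH * 1) * ‖HH (I * T)‖ * Z ≤
      Real.exp (Om T * (phx (2 * (t / 4) * Om T) r + 5 * η)) * ‖HH (I * T)‖ :=
    (mul_le_mul_of_nonneg_right d3 hZ0).trans hXX
  have h9 : Real.exp (Om T * r - KH * 1) * Z ≤ Real.exp (Om T * (phx (2 * (t / 4) * Om T) r + 5 * η)) := by
    refine le_of_mul_le_mul_right ?_ hHp
    linarith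
  have hLp : 0 < Om T := by linarith
  calc Z = Real.exp (-(Om T * r - KH * 1)) * (Real.exp (Om T * r - KH * 1) * Z) := by
        rw [← mul_assoc, ← Real.exp_add, neg_add_cancel, Real.exp_zero, one_mul]
    _ ≤ Real.exp (-(Om T * r - KH * 1)) * Real.exp (Om T * (phx (2 * (t / 4) * Om T) r + 5 * η)) :=
        mul_le_mul_of_nonneg_left h9 (Real.exp_pos _).le
    _ = Real.exp (-(Om T * r - KH * 1) + Om T * (phx (2 * (t / 4) * Om T) r + 5 * η)) := by
        rw [← Real.exp_add]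
    _ ≤ Real.exp (Real.log T * (max (x - r) 0 ^ 2 / (4 * x) + ε)) := by
        apply Real.exp_le_exp.2
        have e6 : Real.log T = 2 * Om T := by unfold Om; ring
        rw [e6]
        have h10 : Om T * (phx (2 * (t / 4) * Om T) r + 5 * η) ≤ Om T * (phx x r + 2 * η + 5 * η) :=
          mul_le_mul_of_nonneg_left (by linarith) hLp.le
        have h11 : Om T * (phx x r + 2 * η + 5 * η) =
            Om T * r + 2 * Om T * (max (x - r) 0 ^ 2 / (4 * x)) + 7 * (η * Om T) := by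
          unfold phx
          field_simp
          ring
        have h12 : Om T * (8 * η) ≤ Om T * ε := mul_le_mul_of_nonneg_left (by linarith) hLp.le
        have h13 : 0 < Om T * ε := by positivity
        linarith
    _ = T ^ (max (x - r) 0 ^ 2 / (4 * x) + ε) := by rw [Real.rpow_def_of_pos hTp]

/-- the Lindelof hypothesis -/
def LHyp : Prop := ∀ ε : ℝ, 0 < ε → ∃ C : ℝ, ∀ t : ℝ, ‖riemannZeta (1 / 2 + t * I)‖ ≤ C * (1 + |t|) ^ ε

lemma few_four {κ : ℝ} (hκ : 4 ≤ κ) : Few κ := by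
  have := fewF one_pos ub_one
  rw [mul_one] at this
  exact this.mono hκ

lemma few_iff {κ : ℝ} (hκ : 0 < κ) : Few κ ↔ ∀ σ : ℝ, 1 / 2 ≤ σ → σ ≤ 1 →
    Ex σ (max (κ / 4 - (σ - 1 / 2)) 0 ^ 2 / κ) := by
  have e4 : 4 * (κ / 4) = κ := by ring
  constructor
  · intro h σ h1 h2
    have h3 := fewB (x := κ / 4) (by positivity) (by rw [e4]; exact h) (σ - 1 / 2) (by linarith) (by linarith)
    have e1 : 1 / 2 + (σ - 1 / 2) = σ := by ring
    rw [e1, e4] at h3
    exact h3
  · intro h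
    rcases le_or_gt 4 κ with h4 | h4
    · exact few_four h4
    · have hD : Dx (κ / 4) := by
        intro r hr0 hr1
        have h3 := h (1 / 2 + r) (by linarith) (by linarith)
        rw [e4]
        have e1 : 1 / 2 + r - 1 / 2 = r := by ring
        rw [e1] at h3
        exact h3
      have := fewF (x := κ / 4) (by positivity) (ub_of (by positivity) (by linarith) hD)
      rwa [e4] at this

lemma lh_iff : LHyp ↔ ∀ κ : ℝ, 0 < κ → Few κ := by
  constructor
  · intro h κ hκ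
    rw [few_iff hκ]
    intro σ h1 h2 ε hε
    obtain ⟨C, hC⟩ := h ε hε
    obtain ⟨C', hC'⟩ := plr ε hε.le (max C 0 * 2 ^ ε) (by
      intro t ht
      have h3 := hC t
      have h4 : (1 + |t|) ^ ε ≤ (2 * |t|) ^ ε := Real.rpow_le_rpow (by positivity) (by linarith) hε.le
      rw [Real.mul_rpow (by norm_num) (abs_nonneg _)] at h4
      calc ‖riemannZeta (1 / 2 + t * I)‖ ≤ C * (1 + |t|) ^ ε := h3
        _ ≤ max C 0 * (1 + |t|) ^ ε := mul_le_mul_of_nonneg_right (le_max_left _ _) (by positivity)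
        _ ≤ max C 0 * (2 ^ ε * |t| ^ ε) := mul_le_mul_of_nonneg_left h4 (le_max_right _ _)
        _ = _ := by ring)
    have hE : Ex σ 0 := by
      intro ε' hε'
      obtain ⟨C, hC⟩ := h ε' hε'
      obtain ⟨C', hC'⟩ := plr ε' hε'.le (max C 0 * 2 ^ ε') (by
        intro t ht
        have h3 := hC t
        have h4 : (1 + |t|) ^ ε' ≤ (2 * |t|) ^ ε' := Real.rpow_le_rpow (by positivity) (by linarith) hε'.le
        rw [Real.mul_rpow (by norm_num) (abs_nonneg _)] at h4
        calc ‖riemannZeta (1 / 2 + t * I)‖ ≤ C * (1 + |t|) ^ ε' := h3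
          _ ≤ max C 0 * (1 + |t|) ^ ε' := mul_le_mul_of_nonneg_right (le_max_left _ _) (by positivity)
          _ ≤ max C 0 * (2 ^ ε' * |t| ^ ε') := mul_le_mul_of_nonneg_left h4 (le_max_right _ _)
          _ = _ := by ring)
      refine ⟨C', fun t ht => ?_⟩
      rw [zero_add]
      exact hC' σ h1 h2 t ht
    exact hE.mono (by positivity) ε hε
  · intro h ε hε
    have h1 := (few_iff (by positivity : 0 < 8 * ε)).1 (h _ (by positivity)) (1 / 2) le_rfl (by norm_num)
      (ε / 2) (by positivity)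
    obtain ⟨C, hC⟩ := h1
    have e1 : max (8 * ε / 4 - (1 / 2 - 1 / 2)) 0 ^ 2 / (8 * ε) + ε / 2 = ε := by
      rw [max_eq_left (by linarith)]
      field_simp
      ring
    rw [e1] at hC
    obtain ⟨B, hB⟩ := isCompact_Icc.exists_bound_of_continuousOn (cont_line (1 / 2) (a := -1) (b := 1)
      (Or.inl (by norm_num)))
    have e2 : ∀ t : ℝ, ((1 / 2 : ℝ) : ℂ) + t * I = 1 / 2 + t * I := by intro t; push_cast; ring
    refine ⟨max C 0 + |B|, fun t => ?_⟩
    have h0 := abs_nonneg t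
    have hp1 : 1 ≤ (1 + |t|) ^ ε := Real.one_le_rpow (by linarith) hε.le
    rcases le_or_gt 1 |t| with h2 | h2
    · have h3 := hC t h2
      rw [e2] at h3
      have h4 : |t| ^ ε ≤ (1 + |t|) ^ ε := Real.rpow_le_rpow h0 (by linarith) hε.le
      have h5 : 0 ≤ |t| ^ ε := by positivity
      calc ‖riemannZeta (1 / 2 + t * I)‖ ≤ C * |t| ^ ε := h3
        _ ≤ max C 0 * |t| ^ ε := mul_le_mul_of_nonneg_right (le_max_left _ _) h5
        _ ≤ max C 0 * (1 + |t|) ^ ε := mul_le_mul_of_nonneg_left h4 (le_max_right _ _)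
        _ ≤ _ := mul_le_mul_of_nonneg_right (by linarith [abs_nonneg B]) (by positivity)
    · rw [abs_lt] at h2
      have h3 := hB t ⟨h2.1.le, h2.2.le⟩
      rw [e2] at h3
      have h4 := le_abs_self B
      have h5 := le_max_right C 0
      have h6 := abs_nonneg B
      calc ‖riemannZeta (1 / 2 + t * I)‖ ≤ max C 0 + |B| := by linarith
        _ ≤ (max C 0 + |B|) * (1 + |t|) ^ ε := le_mul_of_one_le_right (by positivity) hp1

end Pool.Agent.W186.LH
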