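import Pool.Agent.W186.LH.Fwz

set_option autoImplicit false

/-!
# Few zeros from upper bounds
-/

namespace Pool.Agent.W186.LH

open Complex Filter Topology MeasureTheory Set
open Pool.Agent.H24R2.JP (XX HH Om)
open Pool.Agent.H986R2.DBN (JT XT Ht)
open Pool.Agent.W186.HZ
open Pool.Agent.W186.SN (UB)

lemma cnt_small {x : ℝ} (hx : 0 < x) (hφ : UB (phx x)) (X δ η : ℝ) (hX : x ≤ X) (hδ : 0 < δ) (hδ1 : δ ≤ 1)
    (hη : 0 < η) (hηx : η ≤ x / 8) :
    ∃ T0 : ℝ, 400 ≤ T0 ∧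
    ∀ T τ s : ℝ, T0 ≤ T → 0 < τ → x - η ≤ 2 * τ * Om T → 2 * τ * Om T ≤ X → (s = 1 ∨ s = -1) →
      ∀ S : Finset ℂ, (∀ w ∈ S, XT τ w = 0 ∧ δ ≤ s * w.re ∧ |w.im - T| ≤ δ) →
      (∑ w ∈ S, (analyticOrderNatAt (XT τ) w : ℝ)) * Real.log (5 / (5 - δ / 2)) ≤ 12 * η * Om T := by
  obtain ⟨T1, hT1, hu⟩ := xtu hx hφ (2 * X) (2 * η) (by linarith) (by linarith) (by linarith)
  obtain ⟨T2, hT2, hcv⟩ := conv (x / 2) X (by linarith) (by linarith)
  obtain ⟨K0, hK0, hbs⟩ := fN_base (x / 2) X (by linarith) (by linarith)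
  obtain ⟨T3, hT3, hb⟩ := hbs η hη
  obtain ⟨T4, hT4, hO⟩ := Om_large (max (X / (2 * η)) ((10 * η + X + 10) / η))
  refine ⟨max (max (T1 + 5) T2) (max T3 T4), hT4.trans ((le_max_right _ _).trans (le_max_right _ _)), ?_⟩
  intro T τ s hT hτ h1 h2 hs S hS
  have g1 : T1 + 5 ≤ T := ((le_max_left _ _).trans (le_max_left _ _)).trans hT
  have g2 : T2 ≤ T := ((le_max_right _ _).trans (le_max_left _ _)).trans hT
  have g3 : T3 ≤ T := ((le_max_left _ _).trans (le_max_right _ _)).trans hT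
  have g4 : T4 ≤ T := ((le_max_right _ _).trans (le_max_right _ _)).trans hT
  have hTp : 0 < T := by linarith [hT4.trans g4]
  have hOm := hO T g4
  have hOm1 : X / (2 * η) ≤ Om T := (le_max_left _ _).trans hOm
  have hOm2 : (10 * η + X + 10) / η ≤ Om T := (le_max_right _ _).trans hOm
  rw [div_le_iff₀ (by positivity)] at hOm1
  rw [div_le_iff₀ hη] at hOm2
  have hXp : 0 < X := by linarith
  have hLp : 0 < Om T := by
    by_contra hc
    push Not at hc
    nlinarith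
  have hτη : τ ≤ η := by
    by_contra hc
    push Not at hc
    have : η * Om T < τ * Om T := mul_lt_mul_of_pos_right hc hLp
    linarith
  have h1' : x / 2 ≤ 2 * τ * Om T := by linarith
  obtain ⟨b1, b2⟩ := hb T τ s g3 hτ h1' h2 hs
  have hHp : 0 < ‖HH (I * T)‖ := by
    have h0 : HH (I * T) ≠ 0 := by
      apply Pool.Agent.H24R2.JP.StirAux.HH_ne
      simpa using hTp
    exact norm_pos_iff.2 h0
  have hsv : ∀ v : ℝ, |v| ≤ 5 → |s * v| ≤ 5 := by
    intro v hv
    rcases hs with rfl | rfl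
    · rwa [one_mul]
    · rwa [neg_one_mul, abs_neg]
  have hM : ∀ u ∈ Metric.sphere (5 : ℂ) 5, ‖fN τ T s u‖ ≤ Real.exp (11 * η * Om T) := by
    intro z hz
    obtain ⟨z1, z2⟩ := mem5 (Metric.sphere_subset_closedBall hz)
    rw [abs_le] at z1
    have hn := fN_norm (τ := τ) hTp hs z
    have hh := hsv z.im z2
    obtain ⟨⟨c1, c2, c3⟩, cc⟩ := hcv T τ (s * z.im) g2 hτ h1' h2 hh
    rw [abs_le] at c3
    have hh' := abs_le.1 hh
    have hb := hu (T + s * z.im) τ (by linarith) hτ (by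
      have : 2 * τ * (Om T - 1 / 2) ≤ 2 * τ * Om (T + s * z.im) :=
        mul_le_mul_of_nonneg_left (by linarith) (by positivity)
      linarith) c2 z.re (by linarith) (by linarith)
    have d2 := (cc z.re (5 * (2 * η)) (by linarith) (by linarith)).1
    rw [abs_of_pos (by positivity)] at d2
    have f2 := hb.trans d2
    rw [← hn] at f2
    have hP : 0 < ‖HH (I * T)‖ * Real.exp (Om T * z.re + τ * Om T ^ 2) := by positivity
    refine le_of_mul_le_mul_right (f2.trans ?_) hP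
    calc _ ≤ Real.exp (11 * η * Om T + (Om T * z.re + τ * Om T ^ 2)) * ‖HH (I * T)‖ := by
          apply mul_le_mul_of_nonneg_right _ hHp.le
          apply Real.exp_le_exp.2
          linarith
      _ = Real.exp (11 * η * Om T) * (‖HH (I * T)‖ * Real.exp (Om T * z.re + τ * Om T ^ 2)) := by
          rw [Real.exp_add (11 * η * Om T)]; ring
  have h5 := (b2 5 (Metric.mem_closedBall_self (by norm_num))).1
  have h50 : fN τ T s 5 ≠ 0 := by
    rw [← norm_pos_iff]
    exact lt_of_lt_of_le (Real.exp_pos _) h5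
  have hne : ∃ u, XT τ u ≠ 0 := ⟨I * T + s * 5, fun h0 => h50 ((fN_zero hTp 5).2 h0)⟩
  have hss : s * s = 1 := by rcases hs with rfl | rfl <;> norm_num
  have hssc : (s : ℂ) * s = 1 := by exact_mod_cast hss
  classical
  have hinj : Set.InjOn (fun w : ℂ => (s : ℂ) * (w - I * T)) (S : Set ℂ) := by
    intro a _ b _ hab
    simp only at hab
    have h3 := congrArg (fun q => (s : ℂ) * q) hab
    simp only [← mul_assoc, hssc, one_mul] at h3
    linear_combination h3
  have hjc := jc (fN_diff hτ.le T s) (c := 5) (r := 5 - δ / 2) (R := 5) (by linarith) (by linarith) hM h50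
    (S.image fun w => (s : ℂ) * (w - I * T)) (by
      intro z hz
      rw [Finset.mem_image] at hz
      obtain ⟨w, hw, rfl⟩ := hz
      obtain ⟨w0, w1, w2⟩ := hS w hw
      have w3 := XT_strip hτ.le w0
      have w4 : s * w.re ≤ 1 / 2 := by
        rcases hs with rfl | rfl
        · rw [one_mul]; exact (le_abs_self _).trans w3
        · rw [neg_one_mul]; exact (neg_le_abs _).trans w3
      rw [Metric.mem_closedBall, dist_eq_norm]
      have e1 : ((s : ℂ) * (w - I * T) - 5).re = s * w.re - 5 := by simp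
      have e2 : ((s : ℂ) * (w - I * T) - 5).im = s * (w.im - T) := by simp
      have hsq : ‖(s : ℂ) * (w - I * T) - 5‖ ^ 2 ≤ (5 - δ / 2) ^ 2 := by
        rw [Complex.sq_norm, Complex.normSq_apply, e1, e2]
        have a1 : s * (w.im - T) * (s * (w.im - T)) = (w.im - T) ^ 2 := by
          calc s * (w.im - T) * (s * (w.im - T)) = (s * s) * (w.im - T) ^ 2 := by ring
            _ = _ := by rw [hss, one_mul]
        have a2 : (w.im - T) ^ 2 ≤ δ ^ 2 := by
          rw [← sq_abs]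
          exact pow_le_pow_left₀ (abs_nonneg _) w2 2
        have a3 : (s * w.re - 5) * (s * w.re - 5) ≤ (5 - δ) * (5 - δ) := by nlinarith
        rw [a1]
        nlinarith
      exact (sq_le_sq₀ (norm_nonneg _) (by linarith)).1 hsq)
  rw [Finset.sum_image hinj] at hjc
  have hsum : ∑ w ∈ S, analyticOrderNatAt (fN τ T s) ((s : ℂ) * (w - I * T)) =
      ∑ w ∈ S, analyticOrderNatAt (XT τ) w := by
    refine Finset.sum_congr rfl fun w _ => ?_
    rw [fN_ord hτ.le hTp hs hne]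
    congr 1
    rw [← mul_assoc, hssc]
    ring
  rw [hsum] at hjc
  obtain ⟨N, hN⟩ : ∃ N : ℕ, N = ∑ w ∈ S, analyticOrderNatAt (XT τ) w := ⟨_, rfl⟩
  rw [← hN] at hjc
  have hNc : (∑ w ∈ S, (analyticOrderNatAt (XT τ) w : ℝ)) = N := by rw [hN]; push_cast; rfl
  rw [hNc]
  obtain ⟨q, hq⟩ : ∃ q : ℝ, q = Real.log (5 / (5 - δ / 2)) := ⟨_, rfl⟩
  have hqe : 5 / (5 - δ / 2) = Real.exp q := by
    rw [hq, Real.exp_log]
    apply div_pos (by norm_num)
    linarith
  rw [← hq]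
  rw [hqe, ← Real.exp_nat_mul] at hjc
  have h6 : Real.exp (N * q) * Real.exp (-(η * Om T)) ≤ Real.exp (11 * η * Om T) :=
    (mul_le_mul_of_nonneg_left h5 (Real.exp_pos _).le).trans hjc
  rw [← Real.exp_add, Real.exp_le_exp] at h6
  linarith

lemma cnt_half {x : ℝ} (hx : 0 < x) (hφ : UB (phx x)) (X δ ε : ℝ) (hX : x ≤ X) (hδ : 0 < δ) (hδ1 : δ ≤ 1)
    (hε : 0 < ε) :
    ∃ η T0 : ℝ, 0 < η ∧ 400 ≤ T0 ∧
    ∀ T τ : ℝ, T0 ≤ T → 0 < τ → x - η ≤ 2 * τ * Om T → 2 * τ * Om T ≤ X →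
      ∀ S : Finset ℂ, (∀ w ∈ S, XT τ w = 0 ∧ δ ≤ |w.re| ∧ |w.im - T| ≤ 1 / 2) →
      (∑ w ∈ S, (analyticOrderNatAt (XT τ) w : ℝ)) ≤ ε * Om T := by
  obtain ⟨q, hq⟩ : ∃ q : ℝ, q = Real.log (5 / (5 - δ / 2)) := ⟨_, rfl⟩
  have hq0 : 0 < q := by
    rw [hq]
    apply Real.log_pos
    rw [lt_div_iff₀ (by linarith)]
    linarith
  obtain ⟨n, hn⟩ : ∃ n : ℕ, n = ⌊1 / δ⌋₊ + 1 := ⟨_, rfl⟩
  have hn0 : 0 < (n : ℝ) := by rw [hn]; push_cast; positivity
  obtain ⟨η, hη⟩ : ∃ η : ℝ, η = min (x / 8) (ε * q / (48 * n)) := ⟨_, rfl⟩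
  have hη0 : 0 < η := by rw [hη]; exact lt_min (by linarith) (by positivity)
  have hη1 : η ≤ x / 8 := by rw [hη]; exact min_le_left _ _
  have hη2 : η ≤ ε * q / (48 * n) := by rw [hη]; exact min_le_right _ _
  obtain ⟨T0, hT0, hc⟩ := cnt_small hx hφ (2 * X) δ η (by linarith) hδ hδ1 hη0 hη1
  obtain ⟨T2, hT2, hcv⟩ := conv (x / 2) X (by linarith) (by linarith)
  obtain ⟨T4, hT4, hO⟩ := Om_large (max 1 (X / η))
  refine ⟨η / 2, max (T0 + 2) (max T2 T4), by linarith, hT4.trans ((le_max_right _ _).trans (le_max_right _ _)), ?_⟩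
  intro T τ hT hτ h1 h2 S hS
  have g0 : T0 + 2 ≤ T := (le_max_left _ _).trans hT
  have g2 : T2 ≤ T := ((le_max_left _ _).trans (le_max_right _ _)).trans hT
  have g4 : T4 ≤ T := ((le_max_right _ _).trans (le_max_right _ _)).trans hT
  have hOm := hO T g4
  have hOm1 : 1 ≤ Om T := (le_max_left _ _).trans hOm
  have hOm2 : X / η ≤ Om T := (le_max_right _ _).trans hOm
  rw [div_le_iff₀ hη0] at hOm2
  have hLp : 0 < Om T := by linarith
  have hτη : τ ≤ η / 2 := by
    by_contra hc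
    push Not at hc
    have : η / 2 * Om T < τ * Om T := mul_lt_mul_of_pos_right hc hLp
    linarith
  have h1' : x / 2 ≤ 2 * τ * Om T := by linarith
  classical
  -- the cells
  obtain ⟨J, hJ⟩ : ∃ J : Finset (ℕ × Bool), J = (Finset.range n) ×ˢ (Finset.univ : Finset Bool) := ⟨_, rfl⟩
  obtain ⟨g, hg⟩ : ∃ g : ℂ → ℕ × Bool, g = fun w => (⌊(w.im - T + 1 / 2) / δ⌋₊, decide (0 < w.re)) := ⟨_, rfl⟩
  have hmaps : ∀ w ∈ S, g w ∈ J := by
    intro w hw
    obtain ⟨w0, w1, w2⟩ := hS w hw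
    rw [abs_le] at w2
    rw [hJ, hg, Finset.mem_product]
    refine ⟨?_, Finset.mem_univ _⟩
    rw [Finset.mem_range, hn, Nat.lt_add_one_iff]
    apply Nat.floor_le_floor
    apply div_le_div_of_nonneg_right _ hδ.le
    linarith
  rw [← Finset.sum_fiberwise_of_maps_to hmaps]
  have hcell : ∀ j ∈ J, (∑ w ∈ S with g w = j, (analyticOrderNatAt (XT τ) w : ℝ)) ≤ ε / (2 * n) * Om T := by
    intro j hj
    rw [hJ, Finset.mem_product, Finset.mem_range] at hj
    obtain ⟨j1, -⟩ := hj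
    obtain ⟨v, hv⟩ : ∃ v : ℝ, v = -(1 / 2) + j.1 * δ := ⟨_, rfl⟩
    have hj2 : (j.1 : ℝ) * δ ≤ 1 := by
      have : j.1 ≤ ⌊1 / δ⌋₊ := by omega
      have h3 : (j.1 : ℝ) ≤ 1 / δ := le_trans (by exact_mod_cast this) (Nat.floor_le (by positivity))
      rwa [le_div_iff₀ hδ] at h3
    have hj0 : 0 ≤ (j.1 : ℝ) * δ := by positivity
    have hv1 : |v| ≤ 5 := by rw [hv, abs_le]; constructor <;> linarith
    have hv1' : |v| ≤ 1 := by rw [hv, abs_le]; constructor <;> linarith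
    rw [abs_le] at hv1'
    obtain ⟨⟨c1, c2, c3⟩, -⟩ := hcv T τ v g2 hτ h1' h2 hv1
    rw [abs_le] at c3
    have hlow : x - η ≤ 2 * τ * Om (T + v) := by
      have : 2 * τ * (Om T - 1 / 2) ≤ 2 * τ * Om (T + v) :=
        mul_le_mul_of_nonneg_left (by linarith) (by positivity)
      linarith
    obtain ⟨s, hs⟩ : ∃ s : ℝ, s = if j.2 = true then 1 else -1 := ⟨_, rfl⟩
    have hs' : s = 1 ∨ s = -1 := by
      rw [hs]; split_ifs <;> simp
    have key := hc (T + v) τ s (by linarith) hτ hlow c2 hs' (S.filter fun w => g w = j) (by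
      intro w hw
      rw [Finset.mem_filter] at hw
      obtain ⟨hw1, hw2⟩ := hw
      obtain ⟨w0, w1, w2⟩ := hS w hw1
      rw [abs_le] at w2
      rw [hg] at hw2
      have e1 : ⌊(w.im - T + 1 / 2) / δ⌋₊ = j.1 := congrArg Prod.fst hw2
      have e2 : decide (0 < w.re) = j.2 := congrArg Prod.snd hw2
      refine ⟨w0, ?_, ?_⟩
      · rw [hs, ← e2]
        by_cases h3 : 0 < w.re
        · simp only [h3, decide_true, if_true, one_mul]
          rwa [abs_of_pos h3] at w1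
        · simp only [h3, decide_false, Bool.false_eq_true, if_false, neg_one_mul]
          rwa [abs_of_nonpos (not_lt.1 h3)] at w1
      · have h3 : 0 ≤ (w.im - T + 1 / 2) / δ := div_nonneg (by linarith) hδ.le
        have h4 := Nat.floor_le h3
        have h5 := Nat.lt_floor_add_one ((w.im - T + 1 / 2) / δ)
        rw [e1, le_div_iff₀ hδ] at h4
        rw [e1, div_lt_iff₀ hδ] at h5
        rw [hv, abs_le]
        constructor <;> linarith)
    rw [← hq] at key
    have h6 : 12 * η * Om (T + v) ≤ ε / (2 * n) * Om T * q := by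
      have h7 : 12 * η * Om (T + v) ≤ 12 * η * (2 * Om T) :=
        mul_le_mul_of_nonneg_left (by linarith) (by positivity)
      have h8 : 12 * η * (2 * Om T) ≤ 12 * (ε * q / (48 * n)) * (2 * Om T) := by gcongr
      refine h7.trans (h8.trans (le_of_eq ?_))
      field_simp
      norm_num
    exact le_of_mul_le_mul_right (key.trans h6) hq0
  refine (Finset.sum_le_sum hcell).trans ?_
  rw [Finset.sum_const, hJ, Finset.card_product, Finset.card_range, Finset.card_univ, Fintype.card_bool,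
    nsmul_eq_mul]
  apply le_of_eq
  push_cast
  field_simp

end Pool.Agent.W186.LH
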