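import Pool.Agent.W186.LH.Cnt
import Pool.Agent.W186.SN.VB
import Pool.Agent.H353R2.Z1

set_option autoImplicit false

/-!
# Exponents of zeta
-/

namespace Pool.Agent.W186.LH

open Complex Filter Topology MeasureTheory Set
open Pool.Agent.H24R2.JP (XX HH Om)
open Pool.Agent.H986R2.DBN (JT XT Ht)
open Pool.Agent.W186.HZ
open Pool.Agent.W186.SN (UB plk)

/-- `zeta (σ + i t)` is `O (|t| ^ (μ + ε))` for every positive `ε` -/
def Ex (σ μ : ℝ) : Prop := ∀ ε : ℝ, 0 < ε → ∃ C : ℝ, ∀ t : ℝ, 1 ≤ |t| →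
  ‖riemannZeta (σ + t * I)‖ ≤ C * |t| ^ (μ + ε)

lemma Ex.mono {σ μ μ' : ℝ} (h : Ex σ μ) (hμ : μ ≤ μ') : Ex σ μ' := by
  intro ε hε
  obtain ⟨C, hC⟩ := h ε hε
  refine ⟨max C 0, fun t ht => ?_⟩
  refine (hC t ht).trans ?_
  have h1 : |t| ^ (μ + ε) ≤ |t| ^ (μ' + ε) := Real.rpow_le_rpow_of_exponent_le ht (by linarith)
  have h2 : 0 ≤ |t| ^ (μ + ε) := by positivity
  calc C * |t| ^ (μ + ε) ≤ max C 0 * |t| ^ (μ + ε) := mul_le_mul_of_nonneg_right (le_max_left _ _) h2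
    _ ≤ _ := mul_le_mul_of_nonneg_left h1 (le_max_right _ _)

lemma cont_line (σ : ℝ) {a b : ℝ} (h : σ ≠ 1 ∨ 0 < a) :
    ContinuousOn (fun t : ℝ => riemannZeta (σ + t * I)) (Icc a b) := by
  intro t ht
  have hne : (σ : ℂ) + t * I ≠ 1 := by
    intro h1
    have e1 := congrArg Complex.re h1
    have e2 := congrArg Complex.im h1
    simp at e1 e2
    rcases h with h | h
    · exact h e1
    · have := ht.1
      linarith
  have h1 : ContinuousAt riemannZeta ((σ : ℂ) + t * I) := (differentiableAt_riemannZeta hne).continuousAt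
  have h2 : ContinuousAt (fun t : ℝ => (σ : ℂ) + t * I) t := by fun_prop
  exact (ContinuousAt.comp (f := fun t : ℝ => (σ : ℂ) + t * I) h1 h2).continuousWithinAt

lemma conj_line (σ t : ℝ) : ‖riemannZeta (σ + ((-t : ℝ) : ℂ) * I)‖ = ‖riemannZeta (σ + t * I)‖ := by
  have e : (σ : ℂ) + ((-t : ℝ) : ℂ) * I = (starRingEnd ℂ) (σ + t * I) := by
    apply Complex.ext <;> simp
  rw [e, riemannZeta_conj, Complex.norm_conj]

lemma Ex_of (σ μ : ℝ) (hμ : 0 ≤ μ) (h : ∀ ε : ℝ, 0 < ε → ∃ T0 : ℝ, ∀ t : ℝ, T0 ≤ t →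
    ‖riemannZeta (σ + t * I)‖ ≤ t ^ (μ + ε)) : Ex σ μ := by
  intro ε hε
  obtain ⟨T0, hT⟩ := h ε hε
  obtain ⟨B, hB⟩ := isCompact_Icc.exists_bound_of_continuousOn (cont_line σ (a := 1) (b := max T0 1)
    (Or.inr one_pos))
  have hpos : ∀ t : ℝ, 1 ≤ t → ‖riemannZeta (σ + t * I)‖ ≤ (|B| + 1) * t ^ (μ + ε) := by
    intro t ht
    have h1 : 1 ≤ t ^ (μ + ε) := Real.one_le_rpow ht (by linarith)
    rcases le_or_gt T0 t with h2 | h2
    · refine (hT t h2).trans ?_
      have := abs_nonneg B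
      nlinarith
    · have h3 := hB t ⟨ht, h2.le.trans (le_max_left _ _)⟩
      have := le_abs_self B
      have := abs_nonneg B
      nlinarith
  refine ⟨|B| + 1, fun t ht => ?_⟩
  rcases le_total 0 t with h1 | h1
  · rw [abs_of_nonneg h1] at ht ⊢
    exact hpos t ht
  · rw [abs_of_nonpos h1] at ht ⊢
    have := hpos (-t) ht
    rwa [conj_line] at this

lemma zeta_two (s : ℂ) (hs : s.re = 2) : ‖riemannZeta s‖ ≤ 2 := by
  rw [zeta_eq_tsum_one_div_nat_add_one_cpow (by rw [hs]; norm_num)]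
  have hterm : ∀ n : ℕ, ‖1 / ((n : ℂ) + 1) ^ s‖ ≤ 1 / ((n : ℝ) + 1) ^ 2 := by
    intro n
    have h1 : ((n : ℂ) + 1) = (((n : ℝ) + 1 : ℝ) : ℂ) := by push_cast; ring
    rw [norm_div, norm_one, h1, Complex.norm_cpow_eq_rpow_re_of_pos (by positivity), hs]
    norm_num
  have hsum := hasSum_zeta_two
  have hs1 : HasSum (fun n : ℕ => 1 / ((n : ℝ) + 1) ^ 2) (Real.pi ^ 2 / 6) := by
    have := (hasSum_nat_add_iff' (f := fun n : ℕ => 1 / (n : ℝ) ^ 2) 1).2 hsum
    simpa using this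
  refine (tsum_of_norm_bounded hs1 hterm).trans ?_
  have := Real.pi_lt_d2
  have := Real.pi_pos
  nlinarith

/-- the bound moves to the right -/
lemma plr (μ : ℝ) (hμ : 0 ≤ μ) (C : ℝ) (hC : ∀ t : ℝ, 1 ≤ |t| → ‖riemannZeta (1 / 2 + t * I)‖ ≤ C * |t| ^ μ) :
    ∃ C' : ℝ, ∀ σ : ℝ, 1 / 2 ≤ σ → σ ≤ 1 → ∀ t : ℝ, 1 ≤ |t| → ‖riemannZeta (σ + t * I)‖ ≤ C' * |t| ^ μ := by
  obtain ⟨B, hB⟩ : ∃ B : ℝ, B = max (max C 2) 48 := ⟨_, rfl⟩
  have hB1 : C ≤ B := by rw [hB]; exact (le_max_left _ _).trans (le_max_left _ _)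
  have hB2 : 2 ≤ B := by rw [hB]; exact (le_max_right _ _).trans (le_max_left _ _)
  have hB3 : 48 ≤ B := by rw [hB]; exact le_max_right _ _
  obtain ⟨f, hf⟩ : ∃ f : ℂ → ℂ, f = fun s => H353.FF s * (s + 2) ^ ((-(1 + μ) : ℝ) : ℂ) := ⟨_, rfl⟩
  have hslit : ∀ s : ℂ, 1 / 2 ≤ s.re → s + 2 ∈ slitPlane := by
    intro s hs
    left
    simp
    linarith
  have hn2 : ∀ s : ℂ, 1 / 2 ≤ s.re → 1 ≤ ‖s + 2‖ := by
    intro s hs
    have := Complex.re_le_norm (s + 2)
    simp at this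
    linarith
  have hfn : ∀ s : ℂ, ‖f s‖ = ‖H353.FF s‖ * ‖s + 2‖ ^ (-(1 + μ)) := by
    intro s
    rw [hf, norm_mul, Complex.norm_cpow_real]
  have hpl : ∀ s : ℂ, 1 / 2 ≤ s.re → ‖s + 2‖ ^ (-(1 + μ)) ≤ 1 := fun s hs =>
    Real.rpow_le_one_of_one_le_of_nonpos (hn2 s hs) (by linarith)
  have hFFb : ∀ s : ℂ, 1 / 2 ≤ s.re → ‖H353.FF s‖ ≤ 3 * (1 + ‖s‖) ^ 2 := by
    intro s hs
    have := H353.FF_bound (1 / 2) (by norm_num) s hs
    norm_num at this ⊢
    exact this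
  have hfd : ∀ s : ℂ, 1 / 2 ≤ s.re → DifferentiableAt ℂ f s := by
    intro s hs
    rw [hf]
    refine (ZU.J_g2b.FF_diff s).mul ?_
    exact (differentiableAt_id.add_const 2).cpow_const (hslit s hs)
  have key : ∀ s : ℂ, 1 / 2 ≤ s.re → s.re ≤ 2 → ‖f s‖ ≤ B := by
    intro s hs1 hs2
    refine PhragmenLindelof.vertical_strip (a := 1 / 2) (b := 2) (C := B) ?_ ?_ ?_ ?_ hs1 hs2
    · apply DifferentiableOn.diffContOnCl
      intro z hz
      have h1 : closure (re ⁻¹' Ioo (1 / 2 : ℝ) 2) ⊆ re ⁻¹' Icc (1 / 2 : ℝ) 2 := by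
        apply closure_minimal
        · intro z hz; exact ⟨hz.1.le, hz.2.le⟩
        · exact isClosed_Icc.preimage Complex.continuous_re
      exact (hfd z (h1 hz).1).differentiableWithinAt
    · refine ⟨1, ?_, 2, ?_⟩
      · rw [lt_div_iff₀ (by norm_num)]
        linarith [Real.pi_gt_three]
      · apply Asymptotics.IsBigO.of_bound 27
        apply Filter.mem_inf_of_right
        intro z hz
        have hz1 : 1 / 2 ≤ z.re := hz.1.le
        have hz2 : z.re ≤ 2 := hz.2.le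
        have h1 : ‖f z‖ ≤ 3 * (1 + ‖z‖) ^ 2 := by
          rw [hfn]
          calc ‖H353.FF z‖ * ‖z + 2‖ ^ (-(1 + μ)) ≤ ‖H353.FF z‖ * 1 :=
                mul_le_mul_of_nonneg_left (hpl z hz1) (norm_nonneg _)
            _ ≤ _ := by rw [mul_one]; exact hFFb z hz1
        have h2 : ‖z‖ ≤ 2 + |z.im| := by
          refine (Complex.norm_le_abs_re_add_abs_im z).trans ?_
          rw [abs_of_nonneg (by linarith : (0 : ℝ) ≤ z.re)]
          linarith
        have h3 : 1 + |z.im| ≤ Real.exp |z.im| := by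
          have := Real.add_one_le_exp |z.im|
          linarith
        have h0 := abs_nonneg z.im
        have h4 : (1 + ‖z‖) ^ 2 ≤ 9 * (Real.exp |z.im|) ^ 2 := by
          have h5 : 1 + ‖z‖ ≤ 3 * Real.exp |z.im| := by linarith
          calc (1 + ‖z‖) ^ 2 ≤ (3 * Real.exp |z.im|) ^ 2 := by
                apply pow_le_pow_left₀ (by positivity) h5
            _ = _ := by ring
        have h6 : (Real.exp |z.im|) ^ 2 ≤ Real.exp (2 * Real.exp (1 * |z.im|)) := by
          rw [← Real.exp_nat_mul, one_mul]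
          apply Real.exp_le_exp.2
          push_cast
          linarith
        rw [Set.mem_setOf_eq, Real.norm_of_nonneg (Real.exp_pos _).le]
        linarith
    · intro z hz
      have hz1 : 1 / 2 ≤ z.re := hz.ge
      have hze : z = 1 / 2 + (z.im : ℂ) * I := by
        apply Complex.ext <;> simp [hz]
      rw [hfn]
      rcases le_or_gt 1 |z.im| with h1 | h1
      · have hne : z ≠ 1 := by
          intro h; rw [h] at hz; norm_num at hz
        have h2 : ‖z - 1‖ ≤ ‖z + 2‖ := by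
          rw [← sq_le_sq₀ (norm_nonneg _) (norm_nonneg _), Complex.sq_norm, Complex.sq_norm,
            Complex.normSq_apply, Complex.normSq_apply]
          simp only [sub_re, add_re, sub_im, add_im, one_re, one_im, re_ofNat, im_ofNat, sub_zero, add_zero]
          rw [hz]
          nlinarith
        have h3 : |z.im| ≤ ‖z + 2‖ := by
          have := abs_im_le_norm (z + 2)
          simpa using this
        have h4 := hC z.im h1
        rw [← hze] at h4
        have h5 : ‖H353.FF z‖ ≤ ‖z + 2‖ * (B * ‖z + 2‖ ^ μ) := by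
          rw [show H353.FF z = (z - 1) * riemannZeta z from ZU.J_g2b.FF_ne hne, norm_mul]
          apply mul_le_mul h2 _ (norm_nonneg _) (norm_nonneg _)
          refine h4.trans ?_
          have : |z.im| ^ μ ≤ ‖z + 2‖ ^ μ := Real.rpow_le_rpow (abs_nonneg _) h3 hμ
          have h7 : 0 ≤ |z.im| ^ μ := by positivity
          calc C * |z.im| ^ μ ≤ B * |z.im| ^ μ := mul_le_mul_of_nonneg_right hB1 h7
            _ ≤ _ := mul_le_mul_of_nonneg_left this (by linarith)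
        have hp : 0 < ‖z + 2‖ := by linarith [hn2 z hz1]
        calc ‖H353.FF z‖ * ‖z + 2‖ ^ (-(1 + μ)) ≤ ‖z + 2‖ * (B * ‖z + 2‖ ^ μ) * ‖z + 2‖ ^ (-(1 + μ)) :=
              mul_le_mul_of_nonneg_right h5 (by positivity)
          _ = B * (‖z + 2‖ ^ (1 : ℝ) * ‖z + 2‖ ^ μ * ‖z + 2‖ ^ (-(1 + μ))) := by
              rw [Real.rpow_one]; ring
          _ = B := by
              rw [← Real.rpow_add hp, ← Real.rpow_add hp, add_neg_cancel, Real.rpow_zero, mul_one]
      · have h2 := hFFb z hz1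
        have h3 : ‖z‖ ≤ 3 / 2 := by
          refine (Complex.norm_le_abs_re_add_abs_im z).trans ?_
          rw [hz, abs_of_nonneg (by norm_num : (0 : ℝ) ≤ 1 / 2)]
          linarith
        have h4 := norm_nonneg z
        calc ‖H353.FF z‖ * ‖z + 2‖ ^ (-(1 + μ)) ≤ ‖H353.FF z‖ * 1 :=
              mul_le_mul_of_nonneg_left (hpl z hz1) (norm_nonneg _)
          _ ≤ B := by nlinarith
    · intro z hz
      have hz1 : 1 / 2 ≤ z.re := by rw [hz]; norm_num
      have hne : z ≠ 1 := by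
        intro h; rw [h] at hz; norm_num at hz
      rw [hfn]
      have h2 : ‖z - 1‖ ≤ ‖z + 2‖ := by
        rw [← sq_le_sq₀ (norm_nonneg _) (norm_nonneg _), Complex.sq_norm, Complex.sq_norm,
          Complex.normSq_apply, Complex.normSq_apply]
        simp only [sub_re, add_re, sub_im, add_im, one_re, one_im, re_ofNat, im_ofNat, sub_zero, add_zero]
        rw [hz]
        nlinarith
      have hp1 := hn2 z hz1
      have hp : 0 < ‖z + 2‖ := by linarith
      have h5 : ‖H353.FF z‖ ≤ ‖z + 2‖ * B := by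
        rw [show H353.FF z = (z - 1) * riemannZeta z from ZU.J_g2b.FF_ne hne, norm_mul]
        exact mul_le_mul h2 ((zeta_two z hz).trans hB2) (norm_nonneg _) (norm_nonneg _)
      have h6 : ‖z + 2‖ ^ (-(1 + μ)) ≤ ‖z + 2‖ ^ (-1 : ℝ) :=
        Real.rpow_le_rpow_of_exponent_le hp1 (by linarith)
      calc ‖H353.FF z‖ * ‖z + 2‖ ^ (-(1 + μ)) ≤ ‖z + 2‖ * B * ‖z + 2‖ ^ (-1 : ℝ) :=
            mul_le_mul h5 h6 (by positivity) (by positivity)
        _ = B := by
            rw [Real.rpow_neg_one]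
            field_simp
  refine ⟨B * 4 ^ (1 + μ), fun σ hσ1 hσ2 t ht => ?_⟩
  obtain ⟨s, hs⟩ : ∃ s : ℂ, s = σ + t * I := ⟨_, rfl⟩
  have hre : s.re = σ := by rw [hs]; simp
  have him : s.im = t := by rw [hs]; simp
  have hk := key s (by rw [hre]; exact hσ1) (by rw [hre]; linarith)
  have hne : s ≠ 1 := by
    intro h
    rw [h] at him
    simp at him
    rw [← him, abs_zero] at ht
    linarith
  rw [hfn, show H353.FF s = (s - 1) * riemannZeta s from ZU.J_g2b.FF_ne hne, norm_mul] at hk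
  rw [← hs]
  have hp1 := hn2 s (by rw [hre]; exact hσ1)
  have hp : 0 < ‖s + 2‖ := by linarith
  have htp : 0 < |t| := by linarith
  have h1 : |t| ≤ ‖s - 1‖ := by
    have := abs_im_le_norm (s - 1)
    simpa [him] using this
  have h2 : ‖s + 2‖ ≤ 4 * |t| := by
    refine (Complex.norm_le_abs_re_add_abs_im _).trans ?_
    have e1 : (s + 2).re = σ + 2 := by rw [add_re, hre]; simp
    have e2 : (s + 2).im = t := by rw [add_im, him]; simp
    rw [e1, e2, abs_of_nonneg (by linarith)]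
    linarith
  have h3 : ‖s - 1‖ * ‖riemannZeta s‖ ≤ B * ‖s + 2‖ ^ (1 + μ) := by
    rw [Real.rpow_neg hp.le, ← div_eq_mul_inv, div_le_iff₀ (by positivity)] at hk
    exact hk
  have h4 : ‖s + 2‖ ^ (1 + μ) ≤ (4 * |t|) ^ (1 + μ) := Real.rpow_le_rpow hp.le h2 (by linarith)
  rw [Real.mul_rpow (by norm_num) htp.le] at h4
  have h5 : |t| * ‖riemannZeta s‖ ≤ B * (4 ^ (1 + μ) * |t| ^ (1 + μ)) := by
    calc |t| * ‖riemannZeta s‖ ≤ ‖s - 1‖ * ‖riemannZeta s‖ := mul_le_mul_of_nonneg_right h1 (norm_nonneg _)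
      _ ≤ _ := h3.trans (mul_le_mul_of_nonneg_left h4 (by linarith))
  have h6 : |t| ^ (1 + μ) = |t| * |t| ^ μ := by rw [Real.rpow_add htp, Real.rpow_one]
  rw [h6] at h5
  have h7 : |t| * ‖riemannZeta s‖ ≤ |t| * (B * 4 ^ (1 + μ) * |t| ^ μ) := by
    refine h5.trans (le_of_eq ?_)
    ring
  exact le_of_mul_le_mul_left h7 htp

end Pool.Agent.W186.LH
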