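import Pool.Agent.W186.LH.Inv2
import Pool.Agent.W186.SN.JG

set_option autoImplicit false

/-!
# Upper bounds for the flow from a majorant of `XX`
-/

namespace Pool.Agent.W186.LH

open Complex Filter Topology MeasureTheory Set
open Pool.Agent.H24R2.JP (XX HH Om)
open Pool.Agent.H986R2.DBN (JT XT Ht)
open Pool.Agent.W186.HZ
open Pool.Agent.W186.SN (UB)

lemma jug {φ : ℝ → ℝ} (hφ : UB φ) (m X C ε : ℝ) (hm : 0 < m) (hX : m ≤ X)
    (hC : 0 ≤ C) (hε : 0 < ε) : ∃ T0 : ℝ, 400 ≤ T0 ∧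
    ∀ T τ : ℝ, T0 ≤ T → 0 < τ → m ≤ 2 * τ * Om T → 2 * τ * Om T ≤ X → ∀ a : ℂ, 2 * τ * a.re ≤ C →
      ∀ M : ℝ, 0 ≤ M → (∀ r : ℝ, 0 ≤ r → -(r ^ 2 / (4 * τ)) + a.re * r + Om T * φ r ≤ M) →
      ‖JT τ T a‖ ≤ Real.exp (M + ε * Om T) * ‖HH (I * T)‖ := by
  obtain ⟨R0, T1, hR0, hT1, ht⟩ := tail m X C hm hX hC
  obtain ⟨T2, hT2, hp⟩ := hφ (ε / 2) R0 (by linarith) hR0
  obtain ⟨T4, hT4, hO⟩ := Om_large (max (2 * R0 / ε) (4 * X + 1))
  refine ⟨max (max T1 T2) T4, hT4.trans (le_max_right _ _), ?_⟩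
  intro T τ hT hτ h1 h2 a ha M hM0 hM
  have g1 : T1 ≤ T := ((le_max_left _ _).trans (le_max_left _ _)).trans hT
  have g2 : T2 ≤ T := ((le_max_right _ _).trans (le_max_left _ _)).trans hT
  have g4 : T4 ≤ T := (le_max_right _ _).trans hT
  have hOm := hO T g4
  have hOm1 : 2 * R0 / ε ≤ Om T := (le_max_left _ _).trans hOm
  have hOm2 : 4 * X + 1 ≤ Om T := (le_max_right _ _).trans hOm
  rw [div_le_iff₀ hε] at hOm1
  have hXp : 0 < X := by linarith
  obtain ⟨L, hL⟩ : ∃ L : ℝ, L = Om T := ⟨_, rfl⟩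
  have ht' := fun r hr => ht T τ a.re r g1 hτ h1 h2 ha hr
  have hp' := fun (r : ℝ) (hr0 : 0 ≤ r) (hr1 : r ≤ R0) => hp T g2 (r : ℂ) (by simpa using hr0)
    (by simpa using hr1) (by simp)
  rw [← hL] at h1 h2 hOm1 hOm2 ht' hp' hM ⊢
  have hLp : 0 < L := by linarith
  have hb : ∀ r : ℝ, 0 < r → ‖Fj τ T a r‖ ≤ Real.exp (M + ε * L) * ‖HH (I * T)‖ * Real.exp (-r) := by
    intro r hr
    rw [Fj_norm]
    rcases le_or_gt r R0 with hrR | hrR
    · have h3 := hp' r hr.le hrR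
      rw [Complex.ofReal_re] at h3
      have h4 := hM r hr.le
      calc Real.exp (-(r ^ 2 / (4 * τ)) + a.re * r) * ‖XX (I * T + r)‖
          ≤ Real.exp (-(r ^ 2 / (4 * τ)) + a.re * r) *
            (Real.exp (L * (φ r + ε / 2)) * ‖HH (I * T)‖) := by gcongr
        _ = Real.exp (-(r ^ 2 / (4 * τ)) + a.re * r + L * (φ r + ε / 2)) * ‖HH (I * T)‖ := by
            rw [← mul_assoc, ← Real.exp_add]
        _ ≤ Real.exp (M + ε * L + -r) * ‖HH (I * T)‖ := by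
            have : -(r ^ 2 / (4 * τ)) + a.re * r + L * (φ r + ε / 2) ≤ M + ε * L + -r := by
              nlinarith
            gcongr
        _ = _ := by rw [Real.exp_add]; ring
    · refine (ht' r hrR.le).trans ?_
      rw [mul_assoc, mul_comm ‖HH (I * T)‖, ← mul_assoc, ← Real.exp_add]
      have : -L - r ≤ M + ε * L + -r := by nlinarith
      gcongr
  have hint := expint.1.const_mul (Real.exp (M + ε * L) * ‖HH (I * T)‖)
  have h7 : ‖JT τ T a‖ ≤ ∫ r in Ioi (0 : ℝ), Real.exp (M + ε * L) * ‖HH (I * T)‖ * Real.exp (-r) := by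
    have e : JT τ T a = ∫ r in Ioi (0 : ℝ), Fj τ T a r := rfl
    rw [e]
    exact norm_integral_le_of_norm_le hint
      ((ae_restrict_mem measurableSet_Ioi).mono fun r hr => hb r hr)
  rw [integral_const_mul, expint.2, mul_one] at h7
  exact h7

/-- comparison of exponents -/
lemma cmp {x x' r σ η : ℝ} (hx : 0 < x) (hx' : 0 < x') (hη : 0 ≤ η) (h : x - η ≤ x') (hηx : η ≤ x') (hr : 0 ≤ r)
    (hσ : 0 ≤ σ) : max (x - r) 0 ^ 2 / (2 * x) ≤ (σ + x' - r) ^ 2 / (2 * x') + 2 * η := by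
  rcases le_total (x - r) 0 with h1 | h1
  · rw [max_eq_right h1]
    have : 0 ≤ (σ + x' - r) ^ 2 / (2 * x') := by positivity
    simp only [ne_eq, OfNat.ofNat_ne_zero, not_false_eq_true, zero_pow, zero_div]
    linarith
  · rw [max_eq_left h1]
    rcases le_total x x' with h2 | h2
    · have h3 : (x - r) ^ 2 / (2 * x) ≤ (x' - r) ^ 2 / (2 * x') := by
        rw [div_le_div_iff₀ (by positivity) (by positivity)]
        have h4 : (x' - r) ^ 2 * (2 * x) - (x - r) ^ 2 * (2 * x') = 2 * ((x' - x) * (x * x' - r ^ 2)) := by ring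
        have h5 : r ^ 2 ≤ x * x' := by
          have : r * r ≤ x * x' := mul_le_mul (by linarith) (by linarith) hr hx.le
          nlinarith
        have h6 : 0 ≤ (x' - x) * (x * x' - r ^ 2) := mul_nonneg (by linarith) (by linarith)
        linarith
      have h7 : (x' - r) ^ 2 / (2 * x') ≤ (σ + x' - r) ^ 2 / (2 * x') := by
        apply div_le_div_of_nonneg_right _ (by positivity)
        exact pow_le_pow_left₀ (by linarith) (by linarith) 2
      linarith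
    · -- x' < x
      have h3 : (x - r) ^ 2 / (2 * x) ≤ (x - r) ^ 2 / (2 * x') :=
        div_le_div_of_nonneg_left (sq_nonneg _) (by positivity) (by linarith)
      refine h3.trans ?_
      rw [div_add' _ _ _ (by positivity), div_le_div_iff_of_pos_right (by positivity)]
      rcases le_total (x' - r) 0 with h4 | h4
      · have h5 : (x - r) ^ 2 ≤ η ^ 2 := pow_le_pow_left₀ h1 (by linarith) 2
        nlinarith [sq_nonneg (σ + x' - r)]
      · have h5 : (x - r) ^ 2 ≤ (x' - r + η) ^ 2 := pow_le_pow_left₀ h1 (by linarith) 2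
        have h6 : (x' - r) ^ 2 ≤ (σ + x' - r) ^ 2 := pow_le_pow_left₀ h4 (by linarith) 2
        have h7 : (x' - r) * η ≤ x' * η := mul_le_mul_of_nonneg_right (by linarith) hη
        have h8 : η * η ≤ η * x' := mul_le_mul_of_nonneg_left hηx hη
        nlinarith

/-- upper bound for the flow -/
lemma xtu {x : ℝ} (hx : 0 < x) (hφ : UB (phx x)) (X η : ℝ) (hX : x ≤ X) (hη : 0 < η) (hηx : η ≤ x / 4) :
    ∃ T0 : ℝ, 400 ≤ T0 ∧
    ∀ T τ : ℝ, T0 ≤ T → 0 < τ → x - η ≤ 2 * τ * Om T → 2 * τ * Om T ≤ X → ∀ σ : ℝ, 0 ≤ σ → σ ≤ 10 →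
      ‖XT τ (σ + I * T)‖ ≤ Real.exp (Om T * (σ + τ * Om T + 5 * η)) * ‖HH (I * T)‖ := by
  obtain ⟨T2, hT2, hu⟩ := jug hφ (x / 2) X 10 η (by linarith) (by linarith) (by norm_num) hη
  obtain ⟨T3, hT3, hpre⟩ := pre (m := x / 2) (X := X) (ε := η) (by linarith) (by linarith) hη
  obtain ⟨T4, hT4, hO⟩ := Om_large (max 1 (1 / η))
  refine ⟨max T2 (max T3 T4), hT2.trans (le_max_left _ _), ?_⟩
  intro T τ hT hτ h1 h2 σ hσ0 hσ1
  have g2 : T2 ≤ T := (le_max_left _ _).trans hT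
  have g3 : T3 ≤ T := ((le_max_left _ _).trans (le_max_right _ _)).trans hT
  have g4 : T4 ≤ T := ((le_max_right _ _).trans (le_max_right _ _)).trans hT
  have hOm := hO T g4
  have hOm1 : 1 ≤ Om T := (le_max_left _ _).trans hOm
  have hOm2 : 1 / η ≤ Om T := (le_max_right _ _).trans hOm
  rw [div_le_iff₀ hη] at hOm2
  have h1' : x / 2 ≤ 2 * τ * Om T := by linarith
  obtain ⟨hτ8, p1, p2⟩ := hpre T τ g3 hτ h1' h2
  have hLp : 0 < Om T := by linarith only [hOm1]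
  obtain ⟨α, hα⟩ : ∃ α : ℝ, α = σ / (2 * τ) := ⟨_, rfl⟩
  have hτα : 2 * τ * α = σ := by rw [hα]; field_simp
  have hα0 : 0 ≤ α := by rw [hα]; positivity
  obtain ⟨x', hx'⟩ : ∃ x' : ℝ, x' = 2 * τ * Om T := ⟨_, rfl⟩
  have hx'0 : 0 < x' := by rw [hx']; positivity
  have hM0 : 0 ≤ τ * (Om T + α) ^ 2 + Om T * (2 * η) := by positivity
  have hMr : ∀ r : ℝ, 0 ≤ r → -(r ^ 2 / (4 * τ)) + α * r + Om T * phx x r ≤
      τ * (Om T + α) ^ 2 + Om T * (2 * η) := by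
    intro r hr
    have h3 := cmp (x := x) (x' := x') (r := r) (σ := σ) (η := η) hx hx'0 hη.le (by rw [hx']; exact h1)
      (by rw [hx']; linarith) hr hσ0
    have h4 := mul_le_mul_of_nonneg_left h3 hLp.le
    have h5 : Om T * ((σ + x' - r) ^ 2 / (2 * x') + 2 * η) =
        τ * (Om T + α) ^ 2 + Om T * (2 * η) - (-(r ^ 2 / (4 * τ)) + α * r + Om T * r) := by
      rw [hx', hα]
      field_simp
      ring
    rw [h5] at h4
    unfold phx
    rw [mul_add]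
    linarith
  rw [XT_norm τ T σ hτ, ← hα]
  obtain ⟨P, hP⟩ : ∃ P : ℝ, P = 1 / Real.sqrt Real.pi * (2 * Real.sqrt τ)⁻¹ := ⟨_, rfl⟩
  rw [← hP] at p1 p2 ⊢
  have a2 := hu T τ g2 hτ h1' h2 (α : ℂ) (by rw [Complex.ofReal_re, hτα]; exact hσ1) _ hM0 (by
    intro r hr; rw [Complex.ofReal_re]; exact hMr r hr)
  have a3 := hu T τ g2 hτ h1' h2 (-(α : ℂ)) (by
    rw [Complex.neg_re, Complex.ofReal_re, mul_neg, hτα]; linarith only [hσ0]) _ hM0 (by
    intro r hr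
    rw [Complex.neg_re, Complex.ofReal_re]
    have := hMr r hr
    have h5 : 0 ≤ α * r := by positivity
    linarith)
  obtain ⟨L, hL⟩ : ∃ L : ℝ, L = Om T := ⟨_, rfl⟩
  obtain ⟨H, hH⟩ : ∃ H : ℝ, H = ‖HH (I * T)‖ := ⟨_, rfl⟩
  rw [← hL] at hOm1 hOm2 p1 p2 hLp a2 a3 ⊢
  rw [← hH] at a2 a3 ⊢
  have hH0 : 0 ≤ H := by rw [hH]; exact norm_nonneg _
  have hconj : ‖(starRingEnd ℂ) (JT τ T (-(α : ℂ)))‖ = ‖JT τ T (-(α : ℂ))‖ := Complex.norm_conj _
  have n1 := norm_add_le (JT τ T (α : ℂ)) ((starRingEnd ℂ) (JT τ T (-(α : ℂ))))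
  rw [hconj] at n1
  have c2 : 2 ≤ Real.exp (η * L) := by
    have h3 : Real.exp 1 ≤ Real.exp (η * L) := Real.exp_le_exp.2 (by linarith only [hOm2])
    have := Real.exp_one_gt_d9
    linarith
  obtain ⟨M, hM⟩ : ∃ M : ℝ, M = τ * (L + α) ^ 2 + L * (2 * η) + η * L := ⟨_, rfl⟩
  rw [← hM] at a2 a3
  have c1 : ‖JT τ T (α : ℂ) + (starRingEnd ℂ) (JT τ T (-(α : ℂ)))‖ ≤ Real.exp (η * L) * (Real.exp M * H) := by
    have : Real.exp M * H + Real.exp M * H ≤ Real.exp (η * L) * (Real.exp M * H) := by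
      have := mul_le_mul_of_nonneg_right c2 (by positivity : 0 ≤ Real.exp M * H)
      linarith
    linarith
  calc P * (Real.exp (-(τ * α ^ 2)) * ‖JT τ T (α : ℂ) + (starRingEnd ℂ) (JT τ T (-(α : ℂ)))‖)
      ≤ Real.exp (η * L) * (Real.exp (-(τ * α ^ 2)) * (Real.exp (η * L) * (Real.exp M * H))) :=
        mul_le_mul p2 (mul_le_mul_of_nonneg_left c1 (Real.exp_pos _).le)
          (mul_nonneg (Real.exp_pos _).le (norm_nonneg _)) (Real.exp_pos _).le
    _ = Real.exp (η * L + -(τ * α ^ 2) + η * L + M) * H := by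
        rw [Real.exp_add _ M, Real.exp_add _ (η * L), Real.exp_add (η * L)]
        ring
    _ ≤ _ := by
        apply mul_le_mul_of_nonneg_right _ hH0
        apply Real.exp_le_exp.2
        rw [hM]
        have e1 : τ * (L + α) ^ 2 = τ * L ^ 2 + L * σ + τ * α ^ 2 := by rw [← hτα]; ring
        rw [e1]
        linarith

end Pool.Agent.W186.LH
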