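import Pool.Agent.W186.LH.Bwz

set_option autoImplicit false

/-!
# Few zeros: upper bounds for `XX`
-/

namespace Pool.Agent.W186.LH

open Complex Filter Topology MeasureTheory Set
open Pool.Agent.H24R2.JP (XX HH Om)
open Pool.Agent.H986R2.DBN (JT XT Ht)
open Pool.Agent.W186.HZ

/-- the exponent -/
noncomputable def phx (x r : ℝ) : ℝ := r + max (x - r) 0 ^ 2 / (2 * x)

lemma expo {x r η σ b : ℝ} (hx : 0 < x) (hr : 0 ≤ r) (hη : 0 < η) (hηx : η ≤ 2 * x) (hσ : σ = max η (r - x))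
    (hb : b = r - σ) : b ^ 2 / (2 * x) + σ + x / 2 ≤ phx x r + 2 * η := by
  unfold phx
  rcases le_total η (r - x) with h | h
  · rw [max_eq_right h] at hσ
    have hb' : b = x := by rw [hb, hσ]; ring
    rw [hb', hσ]
    have e : x ^ 2 / (2 * x) = x / 2 := by field_simp
    rw [e]
    have : 0 ≤ max (x - r) 0 ^ 2 / (2 * x) := by positivity
    linarith
  · rw [max_eq_left h] at hσ
    obtain ⟨p, hp⟩ : ∃ p : ℝ, p = max (x - r) 0 := ⟨_, rfl⟩
    have hp0 : 0 ≤ p := by rw [hp]; exact le_max_right _ _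
    have hp1 : x - r ≤ p := by rw [hp]; exact le_max_left _ _
    have hp2 : p ≤ x := by rw [hp]; exact max_le (by linarith) hx.le
    rw [hb, hσ, ← hp]
    have e : (r - η) ^ 2 / (2 * x) + η + x / 2 = (x - r + η) ^ 2 / (2 * x) + r := by
      field_simp
      ring
    rw [e]
    have h1 : (x - r + η) ^ 2 ≤ (p + η) ^ 2 := pow_le_pow_left₀ (by linarith) (by linarith) 2
    have h2 : (x - r + η) ^ 2 / (2 * x) ≤ p ^ 2 / (2 * x) + 2 * η := by
      rw [div_le_iff₀ (by positivity)]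
      have e2 : (p ^ 2 / (2 * x) + 2 * η) * (2 * x) = p ^ 2 + 4 * η * x := by
        field_simp
        ring
      rw [e2]
      have h3 : p * η ≤ x * η := mul_le_mul_of_nonneg_right hp2 hη.le
      have h4 : η * η ≤ η * (2 * x) := mul_le_mul_of_nonneg_left hηx hη.le
      linarith
    linarith

lemma invub (m X η : ℝ) (hm : 0 < m) (hX : m ≤ X) (hη : 0 < η) (hη4 : η ≤ 1 / 4) (hηm : η ≤ 2 * m) :
    ∃ ε T0 : ℝ, 0 < ε ∧ 400 ≤ T0 ∧
    ∀ T τ : ℝ, T0 ≤ T → 0 < τ → m ≤ 2 * τ * Om T → 2 * τ * Om T ≤ X →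
      (∀ T' : ℝ, T / 2 ≤ T' → T' ≤ 2 * T → Cn τ T' (η / 4) (ε * Om T')) →
      ∀ r : ℝ, 0 ≤ r → r ≤ 2 →
        ‖XX (r + I * T)‖ ≤ Real.exp (Om T * (phx (2 * τ * Om T) r + 5 * η)) * ‖HH (I * T)‖ := by
  have hXp : 0 < X := by linarith
  obtain ⟨ε, T1, hε, hT1, hpw⟩ := pwz m X η hm hX hη hη4
  obtain ⟨C, hC, hbd⟩ := XT_bd
  obtain ⟨K, T2, hK, hT2, hst⟩ := Pool.Agent.H986R2.DBN.stir2
  obtain ⟨T6, hT6⟩ : ∃ T6 : ℝ, ∀ t : ℝ, T6 ≤ t → 2 * Om t / m ≤ Real.exp (η * Om t) := by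
    have h1 : Tendsto (fun x : ℝ => Real.exp (η * x) / x) atTop atTop := by
      have := tendsto_exp_mul_div_rpow_atTop 1 η hη
      simpa using this
    have h2 := (h1.comp Om_tendsto).eventually_ge_atTop (2 / m)
    obtain ⟨t3, ht3⟩ := Filter.eventually_atTop.1 (h2.and (Om_tendsto.eventually_gt_atTop 0))
    refine ⟨t3, fun t ht => ?_⟩
    obtain ⟨h3, h4⟩ := ht3 t ht
    simp only [Function.comp] at h3
    rw [le_div_iff₀ h4] at h3
    calc 2 * Om t / m = 2 / m * Om t := by ring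
      _ ≤ _ := h3
  obtain ⟨T4, hT4, hO⟩ := Om_large (max (max (4 * X + 1) ((X + 8) / η)) (2 * X * (1 + C + 6 * 1 + 2 * K)))
  refine ⟨ε, max (max T1 T2) (max T4 T6), hε, hT4.trans ((le_max_left _ _).trans (le_max_right _ _)), ?_⟩
  intro T τ hT hτ h1 h2 hz r hr0 hr1
  have g1 : T1 ≤ T := ((le_max_left _ _).trans (le_max_left _ _)).trans hT
  have g2 : T2 ≤ T := ((le_max_right _ _).trans (le_max_left _ _)).trans hT
  have g4 : T4 ≤ T := ((le_max_left _ _).trans (le_max_right _ _)).trans hT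
  have g6 : T6 ≤ T := ((le_max_right _ _).trans (le_max_right _ _)).trans hT
  have hT400 : 400 ≤ T := hT4.trans g4
  have hOm := hO T g4
  have hOm1 : 4 * X + 1 ≤ Om T := ((le_max_left _ _).trans (le_max_left _ _)).trans hOm
  have hOm2 : (X + 8) / η ≤ Om T := ((le_max_right _ _).trans (le_max_left _ _)).trans hOm
  have hOm6 : 2 * X * (1 + C + 6 * 1 + 2 * K) ≤ Om T := (le_max_right _ _).trans hOm
  rw [div_le_iff₀ hη] at hOm2
  clear hOm
  have hgr := hT6 T g6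
  have hLT : Om T ≤ T := by
    have := Real.log_le_sub_one_of_pos (show 0 < T by linarith)
    unfold Om
    linarith
  have hpw' := hpw T τ g1 hτ h1 h2 hz
  have hH1 := (hst T g2).2.2.1
  clear hpw hst hO hT6
  have hLp : 0 < Om T := by linarith only [hOm1, hXp]
  have hτ8 : τ ≤ 1 / 8 := by
    by_contra hcon
    push Not at hcon
    have : 1 / 8 * Om T ≤ τ * Om T := by gcongr
    linarith only [this, h2, hOm1, hXp]
  have hX8 : Om T / (4 * X) ≤ 1 / (8 * τ) := by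
    rw [div_le_div_iff₀ (by positivity) (by positivity)]; linarith only [h2]
  have hOm6' : 1 + C + 6 * 1 + 2 * K ≤ 1 / (4 * τ) := by
    have e : 1 / (4 * τ) = 2 * (1 / (8 * τ)) := by field_simp; norm_num
    rw [e]
    have h3 : (1 + C + 6 * 1 + 2 * K) / 2 ≤ Om T / (4 * X) := by
      rw [div_le_div_iff₀ (by norm_num) (by positivity)]; linarith only [hOm6]
    linarith only [h3, hX8]
  obtain ⟨σ, hσ⟩ : ∃ σ : ℝ, σ = max η (r - 2 * τ * Om T) := ⟨_, rfl⟩
  obtain ⟨b, hb⟩ : ∃ b : ℝ, b = r - σ := ⟨_, rfl⟩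
  have hσ0 : η ≤ σ := by rw [hσ]; exact le_max_left _ _
  have hσ1 : σ ≤ 3 := by rw [hσ]; exact max_le (by linarith) (by linarith)
  have hHp : 0 < ‖HH (I * T)‖ := lt_of_lt_of_le (Real.exp_pos _) hH1
  obtain ⟨z, hzd⟩ : ∃ z : ℂ, z = (r : ℂ) + I * T := ⟨_, rfl⟩
  obtain ⟨E, hE⟩ : ∃ E : ℝ, E = b ^ 2 / (4 * τ) + Om T * σ + τ * Om T ^ 2 + (X + 4) + η * Om T := ⟨_, rfl⟩
  have hpt : ∀ y : ℝ, z + I * (I * b + y) = σ + I * ((T + y : ℝ) : ℂ) := by
    intro y
    rw [hzd]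
    have : σ = r - b := by rw [hb]; ring
    apply Complex.ext <;> simp [this, sub_eq_add_neg]
  have hgs : ∀ y : ℝ, ‖cexp (-((I * b + y) ^ 2 / (4 * τ)))‖ = Real.exp (-((y ^ 2 - b ^ 2) / (4 * τ))) := by
    intro y
    rw [Complex.norm_exp]
    congr 1
    have e : -((I * (b : ℂ) + y) ^ 2 / (4 * τ)) =
        ((-((y ^ 2 - b ^ 2) / (4 * τ)) : ℝ) : ℂ) + ((-(2 * b * y / (4 * τ)) : ℝ) : ℂ) * I := by
      have h3 : (I * (b : ℂ) + y) ^ 2 = (y ^ 2 - b ^ 2 : ℂ) + (2 * b * y : ℂ) * I := by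
        have : (I * (b : ℂ) + y) ^ 2 = I * I * b ^ 2 + 2 * b * y * I + y ^ 2 := by ring
        rw [this, Complex.I_mul_I]; ring
      rw [h3]
      push_cast
      ring
    rw [e, Complex.add_re, Complex.ofReal_re, Complex.re_ofReal_mul, Complex.I_re, mul_zero, add_zero]
  have hbound : ∀ y : ℝ, ‖cexp (-((I * b + y) ^ 2 / (4 * τ))) * XT τ (z + I * (I * b + y))‖ ≤
      Real.exp E * ‖HH (I * T)‖ * Real.exp (-y ^ 2) := by
    intro y
    rw [norm_mul, hgs, hpt]
    rcases le_or_gt |y| (T / 2) with hc | hc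
    · have hN := hpw' y hc σ hσ0 hσ1
      have e2 : y ^ 2 + |y| ≤ y ^ 2 / (4 * τ) + 1 := by
        have a1 : 2 * y ^ 2 ≤ y ^ 2 / (4 * τ) := by
          rw [le_div_iff₀ (by positivity)]
          nlinarith [sq_nonneg y]
        have a2 : |y| ≤ y ^ 2 + 1 := by
          rw [← sq_abs y]
          nlinarith [sq_nonneg (|y| - 1)]
        linarith
      have e3 : (y ^ 2 - b ^ 2) / (4 * τ) = y ^ 2 / (4 * τ) - b ^ 2 / (4 * τ) := by ring
      calc Real.exp (-((y ^ 2 - b ^ 2) / (4 * τ))) * ‖XT τ (σ + I * ((T + y : ℝ) : ℂ))‖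
          ≤ Real.exp (-((y ^ 2 - b ^ 2) / (4 * τ))) *
            (Real.exp (Om T * σ + τ * Om T ^ 2 + (X + 3) + η * Om T + |y|) * ‖HH (I * T)‖) :=
            mul_le_mul_of_nonneg_left hN (Real.exp_pos _).le
        _ = Real.exp (-((y ^ 2 - b ^ 2) / (4 * τ)) +
            (Om T * σ + τ * Om T ^ 2 + (X + 3) + η * Om T + |y|)) * ‖HH (I * T)‖ := by
            rw [← mul_assoc, ← Real.exp_add]
        _ ≤ Real.exp (E + -y ^ 2) * ‖HH (I * T)‖ := by
            apply mul_le_mul_of_nonneg_right _ hHp.le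
            apply Real.exp_le_exp.2
            rw [e3, hE]
            linarith
        _ = _ := by rw [Real.exp_add]; ring
    · have h5 := out_far (X := X) (b := b) (σ0 := σ) (N := ‖XT τ (σ + I * ((T + y : ℝ) : ℂ))‖)
        hτ (by linarith only [hT400]) hc.le hLp hLT hC one_pos (by linarith only [hK])
        (by linarith only [hσ0, hη]) hOm6' hH1 (hbd τ _ hτ.le hτ8 (by
          have : (((σ : ℝ) : ℂ) + I * ((T + y : ℝ) : ℂ)).re = σ := by simp
          rw [this, abs_of_nonneg (by linarith only [hσ0, hη])]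
          exact hσ1))
      refine h5.trans ?_
      apply mul_le_mul_of_nonneg_right _ (Real.exp_pos _).le
      apply mul_le_mul_of_nonneg_right _ hHp.le
      apply Real.exp_le_exp.2
      rw [hE]
      have : 0 < η * Om T := by positivity
      linarith
  obtain ⟨hint, hval⟩ := inv_heat hτ z (I * b)
  have hg : Integrable (fun y : ℝ => Real.exp (-y ^ 2)) := by
    have h1 := integrable_exp_neg_mul_sq one_pos
    refine h1.congr (Eventually.of_forall fun y => ?_)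
    simp
  have hgi : ∫ y : ℝ, Real.exp (-y ^ 2) ≤ 2 := by
    have h2 := integral_gaussian 1
    rw [div_one] at h2
    have h3 : ∫ y : ℝ, Real.exp (-y ^ 2) = Real.sqrt Real.pi := by
      rw [← h2]
      refine integral_congr_ae (Eventually.of_forall fun v => ?_)
      simp
    rw [h3, Real.sqrt_le_left (by norm_num)]
    linarith [Real.pi_le_four]
  have hI : ‖∫ y : ℝ, cexp (-((I * b + y) ^ 2 / (4 * τ))) * XT τ (z + I * (I * b + y))‖ ≤
      Real.exp E * ‖HH (I * T)‖ * 2 := by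
    refine (norm_integral_le_of_norm_le (hg.const_mul (Real.exp E * ‖HH (I * T)‖))
      (Eventually.of_forall hbound)).trans ?_
    rw [integral_const_mul]
    exact mul_le_mul_of_nonneg_left hgi (by positivity)
  rw [hval, norm_mul] at hI
  have hpre : τ ≤ ‖(Real.pi / (1 / (4 * (τ : ℂ)))) ^ (1 / 2 : ℂ)‖ := by
    have e : (Real.pi / (1 / (4 * (τ : ℂ)))) = ((4 * Real.pi * τ : ℝ) : ℂ) := by
      push_cast
      rw [div_div_eq_mul_div, div_one]
      ring
    rw [e, Complex.norm_cpow_eq_rpow_re_of_pos (by positivity)]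
    have e2 : (1 / 2 : ℂ).re = 1 / 2 := by norm_num
    rw [e2, ← Real.sqrt_eq_rpow]
    apply Real.le_sqrt_of_sq_le
    nlinarith [Real.pi_gt_three]
  have hXXn : 0 ≤ ‖XX z‖ := norm_nonneg _
  have h7 : τ * ‖XX z‖ ≤ Real.exp E * ‖HH (I * T)‖ * 2 :=
    (mul_le_mul_of_nonneg_right hpre hXXn).trans hI
  have h8 : m * ‖XX z‖ ≤ 2 * Om T * (Real.exp E * ‖HH (I * T)‖ * 2) := by
    calc m * ‖XX z‖ ≤ (2 * τ * Om T) * ‖XX z‖ := mul_le_mul_of_nonneg_right h1 hXXn
      _ = 2 * Om T * (τ * ‖XX z‖) := by ring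
      _ ≤ _ := mul_le_mul_of_nonneg_left h7 (by positivity)
  have h9 : ‖XX z‖ ≤ Real.exp (η * Om T) * (Real.exp E * ‖HH (I * T)‖ * 2) := by
    have : ‖XX z‖ ≤ 2 * Om T / m * (Real.exp E * ‖HH (I * T)‖ * 2) := by
      rw [div_mul_eq_mul_div, le_div_iff₀ hm, mul_comm]
      exact h8
    exact this.trans (mul_le_mul_of_nonneg_right hgr (by positivity))
  have hx' : 0 < 2 * τ * Om T := by positivity
  have hex := expo hx' hr0 hη (hηm.trans (by linarith)) hσ hb
  have hex2 := mul_le_mul_of_nonneg_left hex hLp.le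
  have id1 : Om T * (b ^ 2 / (2 * (2 * τ * Om T)) + σ + 2 * τ * Om T / 2) =
      b ^ 2 / (4 * τ) + Om T * σ + τ * Om T ^ 2 := by
    field_simp
    ring
  rw [id1] at hex2
  rw [← hzd]
  refine h9.trans ?_
  have h2e : (2 : ℝ) ≤ Real.exp 1 := by
    have := Real.exp_one_gt_d9
    linarith
  calc Real.exp (η * Om T) * (Real.exp E * ‖HH (I * T)‖ * 2)
      ≤ Real.exp (η * Om T) * (Real.exp E * ‖HH (I * T)‖ * Real.exp 1) := by gcongr
    _ = Real.exp (η * Om T + E + 1) * ‖HH (I * T)‖ := by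
        rw [Real.exp_add, Real.exp_add]; ring
    _ ≤ _ := by
        apply mul_le_mul_of_nonneg_right _ hHp.le
        apply Real.exp_le_exp.2
        rw [hE]
        linarith

end Pool.Agent.W186.LH
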