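import Pool.Agent.W186.LH.Sab
import Pool.Agent.W186.HZ.HG
import Pool.Agent.W186.HZ.Fin

set_option autoImplicit false

/-!
# The normalised heat flow near height `T`, on either side of the line
-/

namespace Pool.Agent.W186.LH

open Complex Filter Topology MeasureTheory Set
open Pool.Agent.H24R2.JP (XX HH Om)
open Pool.Agent.H986R2.DBN (JT XT Ht)
open Pool.Agent.W186.HZ

/-- the normalised function on the side `s = 1` or `s = -1` -/
noncomputable def fN (τ T s : ℝ) (u : ℂ) : ℂ :=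
  XT τ (I * T + s * u) * cexp (-(Om T : ℂ) * u) *
    (((‖HH (I * T)‖ * Real.exp (τ * Om T ^ 2))⁻¹ : ℝ) : ℂ)

lemma fN_diff {τ : ℝ} (hτ : 0 ≤ τ) (T s : ℝ) : Differentiable ℂ (fN τ T s) := by
  have h1 : Differentiable ℂ (XT τ) := fun z => Pool.Agent.H986R2.DBN.KerAux.hasDerivAt_XT hτ z
  have h2 : Differentiable ℂ fun u : ℂ => XT τ (I * T + s * u) := h1.comp (by fun_prop)
  unfold fN
  exact (h2.mul (by fun_prop)).mul_const _

lemma XT_abs (τ σ T : ℝ) : ‖XT τ (-(σ : ℂ) + I * T)‖ = ‖XT τ (σ + I * T)‖ := by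
  have h1 : -(σ : ℂ) + I * T = -((starRingEnd ℂ) (σ + I * T)) := by
    apply Complex.ext <;> simp
  rw [h1, Pool.Agent.H986R2.DBN.KerAux.XT_neg, Pool.Agent.H986R2.DBN.KerAux.XT_conj, Complex.norm_conj]

lemma fN_norm {τ T s : ℝ} (hT : 0 < T) (hs : s = 1 ∨ s = -1) (u : ℂ) :
    ‖fN τ T s u‖ * (‖HH (I * T)‖ * Real.exp (Om T * u.re + τ * Om T ^ 2)) =
      ‖XT τ (u.re + I * ((T + s * u.im : ℝ) : ℂ))‖ := by
  have hHp : 0 < ‖HH (I * T)‖ := by
    have h0 : HH (I * T) ≠ 0 := by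
      apply Pool.Agent.H24R2.JP.StirAux.HH_ne
      simpa using hT
    exact norm_pos_iff.2 h0
  have h1 : ‖XT τ (I * T + s * u)‖ = ‖XT τ (u.re + I * ((T + s * u.im : ℝ) : ℂ))‖ := by
    rcases hs with rfl | rfl
    · congr 2
      apply Complex.ext <;> simp
    · rw [← XT_abs]
      congr 2
      apply Complex.ext <;> simp
  unfold fN
  rw [norm_mul, norm_mul, h1, Complex.norm_exp, Complex.norm_real, Real.norm_of_nonneg (by positivity)]
  have h2 : (-(Om T : ℂ) * u).re = -(Om T * u.re) := by simp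
  rw [h2, Real.exp_add]
  have h3 : Real.exp (-(Om T * u.re)) * Real.exp (Om T * u.re) = 1 := by
    rw [← Real.exp_add, neg_add_cancel, Real.exp_zero]
  have h4 := (Real.exp_pos (τ * Om T ^ 2)).ne'
  have h5 := hHp.ne'
  calc _ = ‖XT τ (u.re + I * ((T + s * u.im : ℝ) : ℂ))‖ *
        (Real.exp (-(Om T * u.re)) * Real.exp (Om T * u.re)) *
        ((‖HH (I * T)‖ * Real.exp (τ * Om T ^ 2))⁻¹ * (‖HH (I * T)‖ * Real.exp (τ * Om T ^ 2))) := by ring
    _ = _ := by
      rw [h3, inv_mul_cancel₀ (mul_ne_zero h5 h4), mul_one, mul_one]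

/-- conversion between nearby heights -/
lemma conv (m X : ℝ) (hm : 0 < m) (hX : m ≤ X) : ∃ T0 : ℝ, 400 ≤ T0 ∧
    ∀ T τ h : ℝ, T0 ≤ T → 0 < τ → m ≤ 2 * τ * Om T → 2 * τ * Om T ≤ X → |h| ≤ 5 →
      (m / 2 ≤ 2 * τ * Om (T + h) ∧ 2 * τ * Om (T + h) ≤ 2 * X ∧ |Om (T + h) - Om T| ≤ 1 / 2) ∧
      ∀ σ e : ℝ, 0 ≤ σ → σ ≤ 10 →
        Real.exp (Om (T + h) * (σ + τ * Om (T + h) + e)) * ‖HH (I * ((T + h : ℝ) : ℂ))‖ ≤
          Real.exp (Om T * σ + τ * Om T ^ 2 + e * Om T + |e| + (X + 10)) * ‖HH (I * T)‖ ∧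
        Real.exp (Om T * σ + τ * Om T ^ 2 + e * Om T - |e| - (X + 10)) * ‖HH (I * T)‖ ≤
        Real.exp (Om (T + h) * (σ + τ * Om (T + h) + e)) * ‖HH (I * ((T + h : ℝ) : ℂ))‖ := by
  obtain ⟨T2, hT2, hHm⟩ := HH_move
  obtain ⟨T4, hT4, hO⟩ := Om_large 1
  refine ⟨max (T2 + 5) T4, hT4.trans (le_max_right _ _), ?_⟩
  intro T τ h hT hτ h1 h2 hh
  have g2 : T2 + 5 ≤ T := (le_max_left _ _).trans hT
  have g4 : T4 ≤ T := (le_max_right _ _).trans hT
  have hO2 := hO T g4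
  have hT400 : 400 ≤ T := hT4.trans g4
  obtain ⟨T', hT'⟩ : ∃ T' : ℝ, T' = T + h := ⟨_, rfl⟩
  have hh' := abs_le.1 hh
  have hOn := Om_half (T' := T') hT400 (by rw [hT', add_sub_cancel_left]; linarith)
  have hOn0 := hOn
  rw [abs_le] at hOn
  have m1 := hHm T h (by linarith) (by linarith)
  have m2 := hHm (T + h) (-h) (by linarith) (by linarith)
  rw [← hT', abs_neg, hT', add_neg_cancel_right, ← hT'] at m2
  rw [← hT'] at m1 ⊢
  obtain ⟨L, hL⟩ : ∃ L : ℝ, L = Om T := ⟨_, rfl⟩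
  obtain ⟨L', hL'⟩ : ∃ L' : ℝ, L' = Om T' := ⟨_, rfl⟩
  rw [← hL, ← hL'] at hOn hOn0
  rw [← hL] at h1 h2 hO2
  rw [← hL, ← hL']
  have hτX : τ * L ≤ X / 2 := by linarith only [h2]
  have hτ1 : τ ≤ X / 2 := by
    have : τ * 1 ≤ τ * L := mul_le_mul_of_nonneg_left hO2 hτ.le
    linarith only [this, hτX]
  have h1' : m / 2 ≤ 2 * τ * L' := by
    have : 2 * τ * (1 / 2 * L) ≤ 2 * τ * L' := by
      apply mul_le_mul_of_nonneg_left _ (by positivity)
      linarith only [hOn.1, hO2]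
    linarith only [this, h1]
  have h2' : 2 * τ * L' ≤ 2 * X := by
    have : 2 * τ * L' ≤ 2 * τ * (2 * L) := by
      apply mul_le_mul_of_nonneg_left _ (by positivity)
      linarith only [hOn.2, hO2]
    linarith only [this, h2]
  refine ⟨⟨h1', h2', hOn0⟩, ?_⟩
  have hH0 : 0 ≤ ‖HH (I * T)‖ := norm_nonneg _
  have hH1 : 0 ≤ ‖HH (I * T')‖ := norm_nonneg _
  have q1 : |τ * (L' ^ 2 - L ^ 2)| ≤ X := by
    have e : τ * (L' ^ 2 - L ^ 2) = (L' - L) * (τ * (L' + L)) := by ring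
    have hL'0 : 0 < L' := by linarith only [hOn.1, hO2]
    rw [e, abs_mul, abs_of_pos (by positivity : 0 < τ * (L' + L))]
    have a1 : |L' - L| ≤ 1 / 2 := abs_le.2 ⟨by linarith only [hOn.1], by linarith only [hOn.2]⟩
    have a2 : τ * (L' + L) ≤ 2 * X := by
      have : τ * (L' + L) ≤ τ * (2 * L + 1) := mul_le_mul_of_nonneg_left (by linarith only [hOn.2]) hτ.le
      linarith only [this, hτX, hτ1, hm, hX]
    calc |L' - L| * (τ * (L' + L)) ≤ 1 / 2 * (2 * X) := by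
          apply mul_le_mul a1 a2 (by positivity) (by norm_num)
      _ = X := by ring
  rw [abs_le] at q1
  intro σ e hσ0 hσ1
  have q2 : |(L' - L) * e| ≤ |e| := by
    rw [abs_mul]
    calc |L' - L| * |e| ≤ 1 * |e| := mul_le_mul_of_nonneg_right (hOn0.trans (by norm_num)) (abs_nonneg _)
      _ = |e| := one_mul _
  rw [abs_le] at q2
  have q3 : (L' - L) * σ ≤ 1 / 2 * σ := mul_le_mul_of_nonneg_right hOn.2 hσ0
  have q4 : -(1 / 2) * σ ≤ (L' - L) * σ := mul_le_mul_of_nonneg_right hOn.1 hσ0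
  constructor
  · calc Real.exp (L' * (σ + τ * L' + e)) * ‖HH (I * T')‖
        ≤ Real.exp (L' * (σ + τ * L' + e)) * (Real.exp |h| * ‖HH (I * T)‖) :=
          mul_le_mul_of_nonneg_left m1 (Real.exp_pos _).le
      _ = Real.exp (L' * (σ + τ * L' + e) + |h|) * ‖HH (I * T)‖ := by
          rw [← mul_assoc, ← Real.exp_add]
      _ ≤ _ := by
          apply mul_le_mul_of_nonneg_right _ hH0
          apply Real.exp_le_exp.2
          linarith only [q1.2, q2.2, q3, hσ1, hh]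
  · calc Real.exp (L * σ + τ * L ^ 2 + e * L - |e| - (X + 10)) * ‖HH (I * T)‖
        ≤ Real.exp (L * σ + τ * L ^ 2 + e * L - |e| - (X + 10)) * (Real.exp |h| * ‖HH (I * T')‖) :=
          mul_le_mul_of_nonneg_left m2 (Real.exp_pos _).le
      _ = Real.exp (L * σ + τ * L ^ 2 + e * L - |e| - (X + 10) + |h|) * ‖HH (I * T')‖ := by
          rw [← mul_assoc, ← Real.exp_add]
      _ ≤ _ := by
          apply mul_le_mul_of_nonneg_right _ hH1
          apply Real.exp_le_exp.2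
          linarith only [q1.1, q2.1, q4, hσ1, hh]

lemma mem5 {z : ℂ} {r : ℝ} (h : z ∈ Metric.closedBall (5 : ℂ) r) : |z.re - 5| ≤ r ∧ |z.im| ≤ r := by
  rw [Metric.mem_closedBall, dist_eq_norm] at h
  have h1 := abs_re_le_norm (z - 5)
  have h2 := abs_im_le_norm (z - 5)
  have e1 : (z - 5).re = z.re - 5 := by simp
  have e2 : (z - 5).im = z.im := by simp
  rw [e1] at h1
  rw [e2] at h2
  exact ⟨h1.trans h, h2.trans h⟩

/-- unconditional bounds -/
lemma fN_base (m X : ℝ) (hm : 0 < m) (hX : m ≤ X) : ∃ K0 : ℝ, 0 < K0 ∧ ∀ ε : ℝ, 0 < ε → ∃ T0 : ℝ, 400 ≤ T0 ∧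
    ∀ T τ s : ℝ, T0 ≤ T → 0 < τ → m ≤ 2 * τ * Om T → 2 * τ * Om T ≤ X → (s = 1 ∨ s = -1) →
      (∀ z ∈ Metric.closedBall (5 : ℂ) 5, ‖fN τ T s z‖ ≤ Real.exp (K0 * Om T)) ∧
      (∀ z ∈ Metric.closedBall (5 : ℂ) (7 / 2), Real.exp (-(ε * Om T)) ≤ ‖fN τ T s z‖ ∧
        ‖fN τ T s z‖ ≤ Real.exp (ε * Om T)) := by
  obtain ⟨K, T1, hK, hT1, hcr⟩ := xt_crude (m / 2) (2 * X) (by linarith) (by linarith)
  obtain ⟨T5, hT5, hcv⟩ := conv m X hm hX
  refine ⟨K + 1, by linarith, ?_⟩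
  intro ε hε
  obtain ⟨T2, hT2, hba⟩ := xt_base (m / 2) (2 * X) (ε / 2) (by linarith) (by linarith) (by linarith)
  obtain ⟨T3, hT3, hHm⟩ := HH_move
  obtain ⟨T4, hT4, hO⟩ := Om_large (max (K + 5) ((X + 10 + ε) * (2 / ε)))
  refine ⟨max (max (T1 + 5) (T2 + 5)) (max (T3 + 5) (max T4 T5)),
    hT4.trans ((le_max_left _ _).trans ((le_max_right _ _).trans (le_max_right _ _))), ?_⟩
  intro T τ s hT hτ h1 h2 hs
  have g1 : T1 + 5 ≤ T := ((le_max_left _ _).trans (le_max_left _ _)).trans hT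
  have g2 : T2 + 5 ≤ T := ((le_max_right _ _).trans (le_max_left _ _)).trans hT
  have g3 : T3 + 5 ≤ T := ((le_max_left _ _).trans (le_max_right _ _)).trans hT
  have g4 : T4 ≤ T := ((le_max_left _ _).trans ((le_max_right _ _).trans (le_max_right _ _))).trans hT
  have g5 : T5 ≤ T := ((le_max_right _ _).trans ((le_max_right _ _).trans (le_max_right _ _))).trans hT
  have hOm := hO T g4
  have hO1 : K + 5 ≤ Om T := (le_max_left _ _).trans hOm
  have hO3 : (X + 10 + ε) * (2 / ε) ≤ Om T := (le_max_right _ _).trans hOm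
  have hO3' : X + 10 + ε ≤ ε / 2 * Om T := by
    have := mul_le_mul_of_nonneg_left hO3 (by positivity : 0 ≤ ε / 2)
    refine le_trans (le_of_eq ?_) this
    field_simp
  have hTp : 0 < T := by linarith [hT4.trans g4]
  have hHp : 0 < ‖HH (I * T)‖ := by
    have h0 : HH (I * T) ≠ 0 := by
      apply Pool.Agent.H24R2.JP.StirAux.HH_ne
      simpa using hTp
    exact norm_pos_iff.2 h0
  have hsv : ∀ v : ℝ, |v| ≤ 5 → |s * v| ≤ 5 := by
    intro v hv
    rcases hs with rfl | rfl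
    · rwa [one_mul]
    · rwa [neg_one_mul, abs_neg]
  constructor
  · intro z hz
    obtain ⟨z1, z2⟩ := mem5 hz
    rw [abs_le] at z1
    have hn := fN_norm (τ := τ) hTp hs z
    have hh := hsv z.im z2
    obtain ⟨⟨c1, c2, c3⟩, -⟩ := hcv T τ (s * z.im) g5 hτ h1 h2 hh
    rw [abs_le] at c3
    have hh' := abs_le.1 hh
    have hb := hcr (T + s * z.im) τ (by linarith) hτ c1 c2 z.re (by linarith) (by linarith)
    have hmv := hHm T (s * z.im) (by linarith) (by linarith)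
    have e1 : Real.exp (K * Om (T + s * z.im)) * ‖HH (I * ((T + s * z.im : ℝ) : ℂ))‖ ≤
        Real.exp (K * Om T + K + 5) * ‖HH (I * T)‖ := by
      calc Real.exp (K * Om (T + s * z.im)) * ‖HH (I * ((T + s * z.im : ℝ) : ℂ))‖
          ≤ Real.exp (K * Om (T + s * z.im)) * (Real.exp |s * z.im| * ‖HH (I * T)‖) :=
            mul_le_mul_of_nonneg_left hmv (Real.exp_pos _).le
        _ = Real.exp (K * Om (T + s * z.im) + |s * z.im|) * ‖HH (I * T)‖ := by
            rw [← mul_assoc, ← Real.exp_add]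
        _ ≤ _ := by
            apply mul_le_mul_of_nonneg_right _ hHp.le
            apply Real.exp_le_exp.2
            have : K * Om (T + s * z.im) ≤ K * (Om T + 1) :=
              mul_le_mul_of_nonneg_left (by linarith) (by linarith)
            linarith
    have e2 := hb.trans e1
    rw [← hn] at e2
    have hτL : 0 ≤ τ * Om T ^ 2 := by positivity
    have hLσ : 0 ≤ Om T * z.re := mul_nonneg (by linarith) (by linarith)
    have e3 : ‖fN τ T s z‖ * (‖HH (I * T)‖ * 1) ≤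
        ‖fN τ T s z‖ * (‖HH (I * T)‖ * Real.exp (Om T * z.re + τ * Om T ^ 2)) := by
      apply mul_le_mul_of_nonneg_left _ (norm_nonneg _)
      apply mul_le_mul_of_nonneg_left _ hHp.le
      exact Real.one_le_exp (by linarith)
    have e4 : ‖fN τ T s z‖ * ‖HH (I * T)‖ ≤ Real.exp (K * Om T + K + 5) * ‖HH (I * T)‖ := by
      rw [mul_one] at e3
      exact e3.trans e2
    refine (le_of_mul_le_mul_right e4 hHp).trans ?_
    apply Real.exp_le_exp.2
    linarith
  · intro z hz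
    obtain ⟨z1, z2⟩ := mem5 hz
    rw [abs_le] at z1
    have hn := fN_norm (τ := τ) hTp hs z
    have hh := hsv z.im (by linarith)
    obtain ⟨⟨c1, c2, c3⟩, cc⟩ := hcv T τ (s * z.im) g5 hτ h1 h2 hh
    have hh' := abs_le.1 hh
    obtain ⟨b1, b2⟩ := hba (T + s * z.im) τ (by linarith) hτ c1 c2 z.re (by linarith) (by linarith)
    have d1 := (cc z.re (-(ε / 2)) (by linarith) (by linarith)).2
    have d2 := (cc z.re (ε / 2) (by linarith) (by linarith)).1
    rw [← sub_eq_add_neg] at d1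
    have f1 := d1.trans b1
    have f2 := b2.trans d2
    rw [← hn] at f1 f2
    rw [abs_neg, abs_of_pos (by linarith : 0 < ε / 2)] at f1
    rw [abs_of_pos (by linarith : 0 < ε / 2)] at f2
    have hP : 0 < ‖HH (I * T)‖ * Real.exp (Om T * z.re + τ * Om T ^ 2) := by positivity
    constructor
    · refine le_of_mul_le_mul_right (le_trans ?_ f1) hP
      calc Real.exp (-(ε * Om T)) * (‖HH (I * T)‖ * Real.exp (Om T * z.re + τ * Om T ^ 2))
          = Real.exp (-(ε * Om T) + (Om T * z.re + τ * Om T ^ 2)) * ‖HH (I * T)‖ := by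
            rw [Real.exp_add (-(ε * Om T))]; ring
        _ ≤ _ := by
            apply mul_le_mul_of_nonneg_right _ hHp.le
            apply Real.exp_le_exp.2
            linarith
    · refine le_of_mul_le_mul_right (f2.trans ?_) hP
      calc _ ≤ Real.exp (ε * Om T + (Om T * z.re + τ * Om T ^ 2)) * ‖HH (I * T)‖ := by
            apply mul_le_mul_of_nonneg_right _ hHp.le
            apply Real.exp_le_exp.2
            linarith
        _ = Real.exp (ε * Om T) * (‖HH (I * T)‖ * Real.exp (Om T * z.re + τ * Om T ^ 2)) := by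
            rw [Real.exp_add (ε * Om T)]; ring

end Pool.Agent.W186.LH
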